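import Mathlib

/-!
# The number of zeros of a diagonal form over a finite field
-/

set_option autoImplicit false
set_option linter.unusedSectionVars false

namespace Pool.Agent.Zk8.DH

open Finset

section field

variable {k : Type} [Field k] [Fintype k] {m : ℕ} [NeZero m]

open scoped Classical in
/-- the number of solutions of `x ^ m = y` -/
lemma card_pow_eq (hm : m ∣ Fintype.card k - 1) (χ : MulChar k ℂ) (hχ : orderOf χ = m) {y : k}
    (hy : y ≠ 0) :
    ((univ.filter fun x : k => x ^ m = y).card : ℂ) = ∑ a : ZMod m, (χ ^ a.val) y := by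
  have hm0 : 0 < m := Nat.pos_of_ne_zero (NeZero.ne m)
  have hQ : 1 < Fintype.card k := Fintype.one_lt_card
  obtain ⟨g, hg⟩ := IsCyclic.exists_generator (α := kˣ)
  have hgo : orderOf g = Fintype.card k - 1 := by
    rw [orderOf_eq_card_of_forall_mem_zpowers hg, Nat.card_eq_fintype_card, Fintype.card_units]
  -- the value at the generator is a primitive root of unity
  have hχm : χ ^ m = 1 := by rw [← hχ, pow_orderOf_eq_one]
  have hext : ∀ φ : MulChar k ℂ, φ g = 1 → φ = 1 := by
    intro φ h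
    ext x
    obtain ⟨j, hj⟩ := Subgroup.mem_zpowers_iff.1 (hg x)
    rw [MulChar.one_apply_coe]
    have h5 : MulChar.equivToUnitHom φ g = 1 := by
      apply Units.ext
      rw [MulChar.coe_equivToUnitHom, h, Units.val_one]
    have h6 : MulChar.equivToUnitHom φ x = 1 := by
      rw [← hj, map_zpow, h5, one_zpow]
    have h7 := congrArg Units.val h6
    rwa [MulChar.coe_equivToUnitHom, Units.val_one] at h7
  have hz : IsPrimitiveRoot (χ (g : k)) m := by
    refine IsPrimitiveRoot.mk_of_lt _ hm0 ?_ ?_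
    · rw [← MulChar.pow_apply_coe, hχm, MulChar.one_apply_coe]
    · intro l hl0 hl h2
      have h3 : χ ^ l = 1 := by
        apply hext
        rw [MulChar.pow_apply_coe, h2]
      exact absurd (orderOf_le_of_pow_eq_one hl0 h3) (by omega)
  obtain ⟨u, rfl⟩ : ∃ u : kˣ, (u : k) = y := ⟨Units.mk0 y hy, rfl⟩
  obtain ⟨n, hn⟩ := (Submonoid.mem_powers_iff _ _).1
    (by
      have h1 : (u : kˣ) ∈ Subgroup.zpowers g := hg u
      rw [← mem_powers_iff_mem_zpowers] at h1
      exact h1 : u ∈ Submonoid.powers g)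
  have hχu : χ (u : k) = χ (g : k) ^ n := by
    rw [← hn, Units.val_pow_eq_pow_val, map_pow]
  -- the right hand side
  have hR : ∑ a : ZMod m, (χ ^ a.val) (u : k) = if m ∣ n then (m : ℂ) else 0 := by
    have h1 : ∀ a : ZMod m, (χ ^ a.val) (u : k) = (χ (g : k) ^ n) ^ a.val := by
      intro a
      rw [MulChar.pow_apply_coe, hχu]
    rw [Finset.sum_congr rfl fun a _ => h1 a]
    have h2 : ∑ a : ZMod m, (χ (g : k) ^ n) ^ a.val = ∑ j ∈ range m, (χ (g : k) ^ n) ^ j := by
      refine Finset.sum_bij' (fun a _ => a.val) (fun j _ => (j : ZMod m)) ?_ ?_ ?_ ?_ ?_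
      · intro a _
        exact mem_range.2 (ZMod.val_lt a)
      · intro j _
        exact mem_univ _
      · intro a _
        exact ZMod.natCast_zmod_val a
      · intro j hj
        exact ZMod.val_natCast_of_lt (mem_range.1 hj)
      · intro a _
        rfl
    rw [h2]
    split_ifs with hd
    · rw [(hz.pow_eq_one_iff_dvd n).2 hd]
      simp
    · have h3 : χ (g : k) ^ n ≠ 1 := fun h => hd ((hz.pow_eq_one_iff_dvd n).1 h)
      rw [geom_sum_eq h3, ← pow_mul, mul_comm n m, pow_mul, hz.pow_eq_one, one_pow, sub_self,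
        zero_div]
  rw [hR]
  obtain ⟨e, he⟩ := hm
  have he0 : 0 < e := by
    rcases Nat.eq_zero_or_pos e with h | h
    · rw [h, mul_zero] at he; omega
    · exact h
  -- the left hand side
  split_ifs with hd
  · obtain ⟨l, rfl⟩ := hd
    -- the solutions are `g ^ l * ζ`
    have hprim : IsPrimitiveRoot (g ^ e : kˣ) m := by
      have h1 := IsPrimitiveRoot.orderOf g
      rw [hgo, he] at h1
      exact h1.pow (by rw [← he]; omega) (mul_comm m e)
    have hprim' : IsPrimitiveRoot ((g ^ e : kˣ) : k) m :=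
      hprim.map_of_injective (f := Units.coeHom k) Units.val_injective
    have h1 : (univ.filter fun x : k => x ^ m = (u : k)) =
        (Polynomial.nthRoots m (u : k)).toFinset := by
      ext x
      rw [mem_filter, Multiset.mem_toFinset, Polynomial.mem_nthRoots hm0]
      simp
    rw [h1, Multiset.toFinset_card_of_nodup (hprim'.nthRoots_nodup hy)]
    have h2 := hprim'.card_nthRoots (u : k)
    rw [if_pos] at h2
    · rw [h2]
    · refine ⟨((g ^ l : kˣ) : k), ?_⟩
      rw [← hn]
      push_cast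
      rw [← pow_mul, mul_comm]
  · have h1 : (univ.filter fun x : k => x ^ m = (u : k)) = ∅ := by
      rw [Finset.filter_eq_empty_iff]
      intro x _ hx
      have hx0 : x ≠ 0 := by
        rintro rfl
        rw [zero_pow hm0.ne'] at hx
        exact hy hx.symm
      have h2 : χ (u : k) = 1 := by
        rw [← hx, map_pow]
        have h3 : (χ ^ m) x = χ x ^ m := by
          have := MulChar.pow_apply_coe χ m (Units.mk0 x hx0)
          simpa using this
        rw [← h3, hχm, MulChar.one_apply (isUnit_iff_ne_zero.2 hx0)]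
      rw [hχu] at h2
      exact hd ((hz.pow_eq_one_iff_dvd n).1 h2)
    rw [h1]
    simp

/-- the exponential sum of a monomial -/
lemma pow_sum (hm : m ∣ Fintype.card k - 1) (χ : MulChar k ℂ) (hχ : orderOf χ = m)
    {ψ : AddChar k ℂ} (hψ : ψ ≠ 1) {t : k} (ht : t ≠ 0) :
    ∑ x : k, ψ (t * x ^ m) =
      ∑ a ∈ (univ : Finset (ZMod m)).erase 0, (χ⁻¹ ^ a.val) t * gaussSum (χ ^ a.val) ψ := by
  classical
  have hm0 : 0 < m := Nat.pos_of_ne_zero (NeZero.ne m)
  have hp : ψ.IsPrimitive := AddChar.IsPrimitive.of_ne_one hψ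
  have hψt : ∑ a : k, ψ (t * a) = 0 := by
    have h2 : ψ.mulShift t ≠ 1 := hp ht
    have h3 := AddChar.sum_eq_zero_of_ne_one h2
    simpa [AddChar.mulShift_apply] using h3
  have key : ∀ φ : MulChar k ℂ, ∑ a : k, φ a * ψ (t * a) = φ⁻¹ t * gaussSum φ ψ := by
    intro φ
    have h2 := gaussSum_mulShift φ ψ (Units.mk0 t ht)
    have h3 : φ t * φ⁻¹ t = 1 := by
      rw [MulChar.inv_apply' , ← map_mul, mul_inv_cancel₀ ht, map_one]
    rw [Units.val_mk0] at h2
    rw [← h2]
    have h4 : gaussSum φ (ψ.mulShift t) = ∑ a : k, φ a * ψ (t * a) := by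
      unfold gaussSum
      simp [AddChar.mulShift_apply]
    rw [h4]
    linear_combination (-(∑ a : k, φ a * ψ (t * a))) * h3
  have h1 : ∑ x : k, ψ (t * x ^ m) =
      ∑ y : k, ((univ.filter fun x : k => x ^ m = y).card : ℂ) * ψ (t * y) := by
    rw [← Finset.sum_fiberwise (s := Finset.univ) (g := fun x : k => x ^ m)]
    refine Finset.sum_congr rfl fun y _ => ?_
    rw [Finset.sum_congr rfl (g := fun _ => ψ (t * y))
      (fun x hx => by rw [(Finset.mem_filter.1 hx).2])]
    rw [Finset.sum_const, nsmul_eq_mul]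
  have h0 : (univ.filter fun x : k => x ^ m = 0).card = 1 := by
    rw [Finset.card_eq_one]
    refine ⟨0, ?_⟩
    ext x
    simp [hm0.ne']
  have h2 : ∑ y : k, ((univ.filter fun x : k => x ^ m = y).card : ℂ) * ψ (t * y) =
      1 + ∑ y ∈ (univ : Finset k).erase 0, ∑ a : ZMod m, (χ ^ a.val) y * ψ (t * y) := by
    rw [← Finset.add_sum_erase _ _ (Finset.mem_univ (0 : k)), h0]
    congr 1
    · simp
    · refine Finset.sum_congr rfl fun y hy => ?_
      rw [card_pow_eq hm χ hχ (Finset.ne_of_mem_erase hy), Finset.sum_mul]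
  have h3 : ∀ φ : MulChar k ℂ, ∑ y ∈ (univ : Finset k).erase 0, φ y * ψ (t * y) =
      φ⁻¹ t * gaussSum φ ψ := by
    intro φ
    rw [← key φ, ← Finset.add_sum_erase _ _ (Finset.mem_univ (0 : k)), MulChar.map_zero, zero_mul,
      zero_add]
  rw [h1, h2, Finset.sum_comm, ← Finset.add_sum_erase _ _ (Finset.mem_univ (0 : ZMod m))]
  have h4 : ∑ y ∈ (univ : Finset k).erase 0, (χ ^ (0 : ZMod m).val) y * ψ (t * y) = -1 := by
    rw [ZMod.val_zero, pow_zero]
    have h5 : ∑ y ∈ (univ : Finset k).erase 0, (1 : MulChar k ℂ) y * ψ (t * y) =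
        ∑ y ∈ (univ : Finset k).erase 0, ψ (t * y) := by
      refine Finset.sum_congr rfl fun y hy => ?_
      rw [MulChar.one_apply (isUnit_iff_ne_zero.2 (Finset.ne_of_mem_erase hy)), one_mul]
    rw [h5]
    have h6 := hψt
    rw [← Finset.add_sum_erase _ _ (Finset.mem_univ (0 : k)), mul_zero,
      AddChar.map_zero_eq_one] at h6
    linear_combination h6
  rw [h4, ← add_assoc, add_neg_cancel, zero_add]
  refine Finset.sum_congr rfl fun a _ => ?_
  rw [h3, inv_pow]

open scoped Classical in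
/-- orthogonality -/
lemma sum_psi {ψ : AddChar k ℂ} (hψ : ψ ≠ 1) (c : k) :
    ∑ t : k, ψ (t * c) = if c = 0 then (Fintype.card k : ℂ) else 0 := by
  rw [AddChar.sum_mulShift c (AddChar.IsPrimitive.of_ne_one hψ)]
  split_ifs <;> simp

lemma psi_sum (ψ : AddChar k ℂ) {ι : Type} (s : Finset ι) (f : ι → k) :
    ψ (∑ i ∈ s, f i) = ∏ i ∈ s, ψ (f i) := by
  classical
  induction s using Finset.induction_on with
  | empty => simp
  | insert a s ha ih => rw [Finset.sum_insert ha, Finset.prod_insert ha, AddChar.map_add_eq_mul, ih]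

open scoped Classical in
/-- the characters of the diagonal form: families of nonzero residues modulo `m` with sum zero -/
noncomputable def chars (m : ℕ) [NeZero m] (ι : Type) [Fintype ι] : Finset (ι → ZMod m) :=
  univ.filter fun s => (∀ i, s i ≠ 0) ∧ ∑ i, s i = 0

lemma prod_pow_val (χ : MulChar k ℂ) (hχ : orderOf χ = m) {ι : Type} [Fintype ι]
    (s : ι → ZMod m) (t : k) (ht : t ≠ 0) :
    ∏ i, (χ ^ (s i).val) t = (χ ^ (∑ i, s i).val) t := by
  have hu : ∀ n : ℕ, (χ ^ n) t = χ t ^ n := by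
    intro n
    have := MulChar.pow_apply_coe χ n (Units.mk0 t ht)
    simpa using this
  have h1 : χ t ^ m = 1 := by
    rw [← hu, ← hχ, pow_orderOf_eq_one, MulChar.one_apply (isUnit_iff_ne_zero.2 ht)]
  simp only [hu]
  rw [Finset.prod_pow_eq_pow_sum]
  have h2 : ∀ a b : ℕ, a ≡ b [MOD m] → χ t ^ a = χ t ^ b := by
    intro a b hab
    rw [← Nat.mod_add_div a m, ← Nat.mod_add_div b m, pow_add, pow_add, pow_mul, pow_mul, h1,
      one_pow, one_pow, hab]
  apply h2
  rw [← ZMod.natCast_eq_natCast_iff]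
  push_cast
  simp

/-- the number of zeros of a diagonal form -/
theorem card_diag (hm : m ∣ Fintype.card k - 1) (χ : MulChar k ℂ) (hχ : orderOf χ = m)
    {ψ : AddChar k ℂ} (hψ : ψ ≠ 1) {ι : Type} [Fintype ι]
    (a : ι → k) (ha : ∀ i, a i ≠ 0) :
    (Fintype.card k : ℂ) * (Nat.card {x : ι → k // ∑ i, a i * x i ^ m = 0} : ℂ) =
      (Fintype.card k : ℂ) ^ Fintype.card ι + (Fintype.card k - 1) *
        ∑ s ∈ chars m ι, ∏ i, ((χ⁻¹ ^ (s i).val) (a i) * gaussSum (χ ^ (s i).val) ψ) := by
  classical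
  have hχm : χ⁻¹ ^ m = 1 := by rw [inv_pow, ← hχ, pow_orderOf_eq_one, inv_one]
  have e1 : (Fintype.card k : ℂ) * (Nat.card {x : ι → k // ∑ i, a i * x i ^ m = 0} : ℂ) =
      ∑ x : ι → k, ∑ t : k, ψ (t * ∑ i, a i * x i ^ m) := by
    rw [Finset.sum_congr rfl fun x _ => sum_psi hψ (∑ i, a i * x i ^ m), ← Finset.sum_filter,
      Finset.sum_const, nsmul_eq_mul, mul_comm, Nat.card_eq_fintype_card, Fintype.card_subtype]
  have e2 : ∀ t : k, ∑ x : ι → k, ψ (t * ∑ i, a i * x i ^ m) =
      ∏ i, ∑ y : k, ψ (t * a i * y ^ m) := by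
    intro t
    rw [Finset.prod_univ_sum, Fintype.piFinset_univ]
    refine Finset.sum_congr rfl fun x _ => ?_
    rw [Finset.mul_sum, psi_sum]
    refine Finset.prod_congr rfl fun i _ => ?_
    rw [mul_assoc]
  rw [e1, Finset.sum_comm, Finset.sum_congr rfl fun t _ => e2 t,
    ← Finset.add_sum_erase _ _ (Finset.mem_univ (0 : k))]
  congr 1
  · simp
  · have e3 : ∀ t ∈ (univ : Finset k).erase 0, ∏ i, ∑ y : k, ψ (t * a i * y ^ m) =
        ∑ s ∈ univ.filter (fun s : ι → ZMod m => ∀ i, s i ≠ 0),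
          (χ⁻¹ ^ (∑ i, s i).val) t *
          ∏ i, ((χ⁻¹ ^ (s i).val) (a i) * gaussSum (χ ^ (s i).val) ψ) := by
      intro t ht
      have ht0 := Finset.ne_of_mem_erase ht
      rw [Finset.prod_congr rfl fun i _ => pow_sum hm χ hχ hψ (mul_ne_zero ht0 (ha i)),
        Finset.prod_univ_sum]
      have e4 : Fintype.piFinset (fun _ : ι => (univ : Finset (ZMod m)).erase 0) =
          univ.filter (fun s : ι → ZMod m => ∀ i, s i ≠ 0) := by
        ext s
        simp
      rw [e4]
      refine Finset.sum_congr rfl fun s _ => ?_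
      rw [← prod_pow_val χ⁻¹ (by rw [orderOf_inv, hχ]) s t ht0, ← Finset.prod_mul_distrib]
      refine Finset.prod_congr rfl fun i _ => ?_
      rw [map_mul]
      ring
    rw [Finset.sum_congr rfl e3, Finset.sum_comm]
    have e5 : ∀ s : ι → ZMod m, ∑ t ∈ (univ : Finset k).erase 0, (χ⁻¹ ^ (∑ i, s i).val) t =
        if ∑ i, s i = 0 then (Fintype.card k : ℂ) - 1 else 0 := by
      intro s
      have h1 : ∑ t ∈ (univ : Finset k).erase 0, (χ⁻¹ ^ (∑ i, s i).val) t =
          ∑ t : k, (χ⁻¹ ^ (∑ i, s i).val) t := by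
        rw [← Finset.add_sum_erase _ _ (Finset.mem_univ (0 : k)), MulChar.map_zero, zero_add]
      split_ifs with h
      · rw [h, ZMod.val_zero, pow_zero]
        rw [Finset.sum_congr rfl (g := fun _ => (1 : ℂ))
          (fun t ht => MulChar.one_apply (isUnit_iff_ne_zero.2 (Finset.ne_of_mem_erase ht)))]
        rw [Finset.sum_const, Finset.card_erase_of_mem (Finset.mem_univ _), Finset.card_univ,
          nsmul_eq_mul, mul_one, Nat.cast_sub Fintype.card_pos, Nat.cast_one]
      · rw [h1]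
        apply MulChar.sum_eq_zero_of_ne_one
        intro h2
        apply h
        have h3 := orderOf_dvd_of_pow_eq_one h2
        rw [orderOf_inv, hχ] at h3
        have h4 := Nat.eq_zero_of_dvd_of_lt h3 (ZMod.val_lt _)
        exact (ZMod.val_eq_zero _).1 h4
    have e6 : ∀ s ∈ univ.filter (fun s : ι → ZMod m => ∀ i, s i ≠ 0),
        ∑ t ∈ (univ : Finset k).erase 0, (χ⁻¹ ^ (∑ i, s i).val) t *
          ∏ i, ((χ⁻¹ ^ (s i).val) (a i) * gaussSum (χ ^ (s i).val) ψ) =
        if ∑ i, s i = 0 then ((Fintype.card k : ℂ) - 1) *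
          ∏ i, ((χ⁻¹ ^ (s i).val) (a i) * gaussSum (χ ^ (s i).val) ψ) else 0 := by
      intro s _
      rw [← Finset.sum_mul, e5]
      split_ifs <;> simp
    rw [Finset.sum_congr rfl e6, ← Finset.sum_filter, Finset.filter_filter, Finset.mul_sum]
    rfl

end field

end Pool.Agent.Zk8.DH
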