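import Pool.Agent.Zk8.DH.LFun

/-!
# Euler products over the finite places of `k(t)`
-/

set_option autoImplicit false
set_option linter.unusedSectionVars false

namespace Pool.Agent.Zk8.DH

open Polynomial Finset Pool.Agent.H341R2.Sharp Pool.Agent.H435R3.Weil

/-- the finite places of `k(t)`: the monic irreducible polynomials -/
abbrev FPlace (k : Type) [Field k] : Type := {P : k[X] // P.Monic ∧ Irreducible P}

section

variable {k : Type} [Field k] [Fintype k] [DecidableEq k]

lemma deg_pos (v : FPlace k) : 0 < v.1.natDegree := v.2.2.natDegree_pos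

lemma fplace_finite (m : ℕ) (hm : 0 < m) : {v : FPlace k | v.1.natDegree ∣ m}.Finite := by
  have h1 : ((Irr k m : Finset k[X]) : Set k[X]).Finite := Finset.finite_toSet _
  have h2 := h1.preimage (f := fun v : FPlace k => v.1) (Subtype.val_injective.injOn)
  refine h2.subset fun v hv => ?_
  rw [Set.mem_preimage, Finset.mem_coe, mem_Irr]
  exact ⟨v.2.1, v.2.2, Nat.le_of_dvd hm hv⟩

lemma sum_fplace {M : Type*} [AddCommMonoid M] (m : ℕ) (hm : 0 < m) (f : k[X] → M) :
    ∑ v ∈ (fplace_finite (k := k) m hm).toFinset, f v.1 =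
      ∑ P ∈ (Irr k m).filter (fun P => P.natDegree ∣ m), f P := by
  classical
  refine Finset.sum_bij (fun v _ => v.1) ?_ ?_ ?_ ?_
  · intro v hv
    rw [Set.Finite.mem_toFinset] at hv
    have hv' : v.1.natDegree ∣ m := hv
    rw [mem_filter, mem_Irr]
    exact ⟨⟨v.2.1, v.2.2, Nat.le_of_dvd hm hv'⟩, hv'⟩
  · intro v _ w _ h
    exact Subtype.ext h
  · intro P hP
    rw [mem_filter, mem_Irr] at hP
    refine ⟨⟨P, hP.1.1, hP.1.2.1⟩, ?_, rfl⟩
    rw [Set.Finite.mem_toFinset]
    exact hP.2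
  · intro v _
    rfl

lemma sum_deg (m : ℕ) (hm : 0 < m) :
    ∑ v ∈ (fplace_finite (k := k) m hm).toFinset, (v.1.natDegree : ℂ) =
      (Fintype.card k : ℂ) ^ m := by
  classical
  rw [sum_fplace m hm (fun P => (P.natDegree : ℂ))]
  obtain ⟨E, _, _, _, hE⟩ := exists_ext k m hm
  have h1 := TL_eq_sum (F := k) (E := E) (fun _ => (1 : ℂ))
  rw [hE] at h1
  unfold TL at h1
  simp only [one_pow, mul_one, Finset.sum_const, Finset.card_univ, nsmul_eq_mul] at h1
  rw [h1, card_eq_pow (k := k) (E := E), hE]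
  push_cast
  rfl

lemma sum_deg_le (m : ℕ) (hm : 0 < m) :
    ∑ v ∈ (fplace_finite (k := k) m hm).toFinset, (v.1.natDegree : ℝ) ≤
      1 * (Fintype.card k : ℝ) ^ m := by
  have h1 := sum_deg (k := k) m hm
  have h2 : ((∑ v ∈ (fplace_finite (k := k) m hm).toFinset, (v.1.natDegree : ℝ) : ℝ) : ℂ) =
      (((Fintype.card k : ℝ) ^ m : ℝ) : ℂ) := by
    push_cast
    exact h1
  rw [one_mul]
  exact (Complex.ofReal_injective h2).le

lemma one_lt_q : (1 : ℝ) < Fintype.card k := by exact_mod_cast Fintype.one_lt_card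

/-- the Euler product attached to a function with known power sums -/
theorem hasProd_of_TL (l : k[X] → ℂ) (hl : ∀ P, ‖l P‖ ≤ 1) (D B : Multiset ℂ)
    (hD : ∀ β ∈ D, ‖β‖ ≤ Fintype.card k) (hB : ∀ β ∈ B, ‖β‖ ≤ Fintype.card k)
    (h : ∀ m : ℕ, 1 ≤ m → TL l m = (D.map fun β => β ^ m).sum - (B.map fun β => β ^ m).sum)
    (x : ℂ) (hx : ‖x‖ * Fintype.card k < 1) :
    HasProd (fun v : FPlace k => (1 - l v.1 * x ^ v.1.natDegree)⁻¹)
      ((PB B).eval x / (PB D).eval x) := by
  rw [PB_eval, PB_eval]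
  refine hasProd_of_psum (fun v : FPlace k => v.1.natDegree) deg_pos fplace_finite
    (Fintype.card k) one_lt_q 1 sum_deg_le (fun v => l v.1) (fun v => hl v.1) D B hD hB
    (fun m hm => ?_) x hx
  rw [← h m hm, sum_fplace m hm (fun P => (P.natDegree : ℂ) * l P ^ (m / P.natDegree))]
  rfl

theorem hasProd_zeta (x : ℂ) (hx : ‖x‖ * Fintype.card k < 1) :
    HasProd (fun v : FPlace k => (1 - x ^ v.1.natDegree)⁻¹)
      (1 - Fintype.card k * x)⁻¹ := by
  classical
  have h := hasProd_of_TL (k := k) (fun _ => 1) (fun _ => by simp) {(Fintype.card k : ℂ)} 0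
    (by simp) (by simp) (fun m hm => by
      have h1 := sum_deg (k := k) m hm
      rw [sum_fplace m hm (fun P => (P.natDegree : ℂ))] at h1
      unfold TL
      simp only [one_pow, mul_one, Multiset.map_singleton, Multiset.sum_singleton,
        Multiset.map_zero, Multiset.sum_zero, sub_zero]
      exact h1) x hx
  simp only [PB_eval, one_mul, Multiset.map_singleton, Multiset.prod_singleton, Multiset.map_zero,
    Multiset.prod_zero, one_div] at h
  exact h

/-- the finite set of the places dividing `A` -/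
lemma finite_dvd (A : k[X]) (hA : A ≠ 0) : {v : FPlace k | v.1 ∣ A}.Finite := by
  have h1 : ((Irr k A.natDegree : Finset k[X]) : Set k[X]).Finite := Finset.finite_toSet _
  have h2 := h1.preimage (f := fun v : FPlace k => v.1) (Subtype.val_injective.injOn)
  refine h2.subset fun v hv => ?_
  rw [Set.mem_preimage, Finset.mem_coe, mem_Irr]
  exact ⟨v.2.1, v.2.2, natDegree_le_of_dvd hv hA⟩

lemma lamA_place (χ : MulChar k ℂ) {A : k[X]} (hA : A ≠ 0) (v : FPlace k) :
    lamA χ A v.1 = 0 ↔ v.1 ∣ A := by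
  rw [lamA_eq_zero_iff χ hA, v.2.2.coprime_iff_not_dvd, not_not]

/-- the Euler product in the geometrically trivial case -/
theorem hasProd_triv (χ : MulChar k ℂ) (A : k[X]) (hA : A ≠ 0) (ε : ℂ) (hε : ‖ε‖ = 1)
    (h : ∀ h : k[X], h.Monic → IsCoprime h A → lamA χ A h = ε ^ h.natDegree)
    (x : ℂ) (hx : ‖x‖ * Fintype.card k < 1) :
    HasProd (fun v : FPlace k => (1 - lamA χ A v.1 * x ^ v.1.natDegree)⁻¹)
      ((1 - Fintype.card k * (ε * x))⁻¹ *
        ∏ v ∈ (finite_dvd A hA).toFinset, (1 - (ε * x) ^ v.1.natDegree)) := by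
  classical
  have hx1 : ‖ε * x‖ * Fintype.card k < 1 := by rw [norm_mul, hε, one_mul]; exact hx
  have hq : (1 : ℝ) < Fintype.card k := one_lt_q
  have hx2 : ‖ε * x‖ < 1 := by nlinarith [norm_nonneg (ε * x)]
  have h1 := hasProd_zeta (k := k) (ε * x) hx1
  have h2 : HasProd (fun v : FPlace k =>
      if v.1 ∣ A then (1 - (ε * x) ^ v.1.natDegree) else 1)
      (∏ v ∈ (finite_dvd A hA).toFinset, (1 - (ε * x) ^ v.1.natDegree)) := by
    have h3 : HasProd (fun v : FPlace k =>
        if v.1 ∣ A then (1 - (ε * x) ^ v.1.natDegree) else 1)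
        (∏ v ∈ (finite_dvd A hA).toFinset,
          if v.1 ∣ A then (1 - (ε * x) ^ v.1.natDegree) else 1) :=
      hasProd_prod_of_ne_finset_one (fun v hv => by
        rw [Set.Finite.mem_toFinset] at hv
        exact if_neg hv)
    convert h3 using 1
    refine Finset.prod_congr rfl fun v hv => ?_
    rw [Set.Finite.mem_toFinset] at hv
    have hv' : v.1 ∣ A := hv
    rw [if_pos hv']
  convert h1.mul h2 using 1
  funext v
  split_ifs with hv
  · rw [(lamA_place χ hA v).2 hv, zero_mul, sub_zero, inv_one, inv_mul_cancel₀]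
    intro h0
    have h3 : ‖(ε * x) ^ v.1.natDegree‖ = 1 := by
      rw [← sub_eq_zero.1 h0, norm_one]
    rw [norm_pow] at h3
    have h4 := pow_lt_one₀ (norm_nonneg (ε * x)) hx2 (deg_pos v).ne'
    linarith
  · rw [mul_one, h v.1 v.2.1 ((v.2.2.coprime_iff_not_dvd).2 hv), mul_pow]

end

end Pool.Agent.Zk8.DH
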