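import Pool.Agent.N883.C.Ext
import Pool.Agent.Zk8.DH.Count
import Pool.Agent.Zk8.DH.Places
import Pool.Agent.Y145.KS.Sum

/-!
# Traces of Frobenius on the primitive cohomology of products of diagonal hypersurfaces
-/

set_option autoImplicit false
set_option linter.unusedSectionVars false

namespace Pool.Agent.Zk8.DH

open Polynomial Finset
open Pool.Agent.Y145.KS (psi psi_apply psi_ne_one splits_of_dvd_finrank)
open Pool.Agent.N883.C (chE chE_apply chE_mul chE_one chE_inv chE_ne_one gauss_E)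

section

variable {k : Type} [Field k] [Fintype k] {m : ℕ} [NeZero m]

/-- the absolute value of a Gauss sum -/
lemma norm_gaussSum {χ : MulChar k ℂ} (hχ : χ ≠ 1) {ψ : AddChar k ℂ} (hψ : ψ ≠ 1) :
    ‖gaussSum χ ψ‖ ^ 2 = Fintype.card k := by
  have h1 := gaussSum_mul_gaussSum_eq_card hχ (AddChar.IsPrimitive.of_ne_one hψ)
  have h2 : gaussSum χ⁻¹ ψ⁻¹ = (starRingEnd ℂ) (gaussSum χ ψ) := by
    unfold gaussSum
    rw [map_sum]
    refine Finset.sum_congr rfl fun x _ => ?_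
    rw [map_mul, AddChar.inv_apply, AddChar.map_neg_eq_conj]
    congr 1
    exact (MulChar.star_apply' χ x).symm
  rw [h2, Complex.mul_conj'] at h1
  exact_mod_cast h1

lemma chE_pow (χ : MulChar k ℂ) (E : Type) [Field E] [Finite E] [Algebra k E] (n : ℕ) :
    chE (χ ^ n) E = chE χ E ^ n := by
  induction n with
  | zero => rw [pow_zero, pow_zero, chE_one]
  | succ n ih => rw [pow_succ, pow_succ, chE_mul, ih]

lemma orderOf_chE (χ : MulChar k ℂ) (E : Type) [Field E] [Finite E] [Algebra k E] :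
    orderOf (chE χ E) = orderOf χ := by
  refine orderOf_eq_orderOf_iff.2 fun n => ?_
  rw [← chE_pow]
  constructor
  · intro h
    by_contra h1
    exact chE_ne_one h1 h
  · intro h
    rw [h, chE_one]

lemma mc_pow_apply (φ : MulChar k ℂ) {n : ℕ} (hn : n ≠ 0) (x : k) : (φ ^ n) x = φ x ^ n :=
  MulChar.pow_apply' φ hn x

/-- the eigenvalue of Frobenius on the line of `s` -/
noncomputable def rho (χ : MulChar k ℂ) (ψ : AddChar k ℂ) {r : ℕ} {n : Fin r → ℕ}
    (s : ∀ b, Fin (n b + 2) → ZMod m) : ℂ :=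
  -((Fintype.card k : ℂ) ^ r)⁻¹ * ∏ b, ∏ j, gaussSum (χ ^ (s b j).val) ψ

/-- the polynomial of the Kummer character of the line of `s` -/
noncomputable def aps {r : ℕ} {n : Fin r → ℕ} (a : ∀ b, Fin (n b + 2) → k[X])
    (s : ∀ b, Fin (n b + 2) → ZMod m) : k[X] := ∏ b, ∏ j, a b j ^ (s b j).val

/-- the lines -/
noncomputable def lines (m : ℕ) [NeZero m] {r : ℕ} (n : Fin r → ℕ) :
    Finset (∀ b, Fin (n b + 2) → ZMod m) := Fintype.piFinset fun b => chars m (Fin (n b + 2))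

lemma mem_chars {ι : Type} [Fintype ι] {s : ι → ZMod m} :
    s ∈ chars m ι ↔ (∀ i, s i ≠ 0) ∧ ∑ i, s i = 0 := by
  simp [chars]

lemma mem_lines {r : ℕ} {n : Fin r → ℕ} {s : ∀ b, Fin (n b + 2) → ZMod m} :
    s ∈ lines m n ↔ ∀ b, (∀ j, s b j ≠ 0) ∧ ∑ j, s b j = 0 := by
  simp [lines, chars]

section ext

variable {E : Type} [Field E] [Fintype E] [Algebra k E]

lemma cardE : (Fintype.card E : ℂ) = (Fintype.card k : ℂ) ^ Module.finrank k E := by
  rw [Module.card_eq_pow_finrank (K := k) (V := E)]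
  push_cast
  rfl

lemma dvd_cardE (hm : m ∣ Fintype.card k - 1) : m ∣ Fintype.card E - 1 := by
  refine hm.trans ?_
  rw [Module.card_eq_pow_finrank (K := k) (V := E)]
  simpa using Nat.sub_dvd_pow_sub_pow (Fintype.card k) 1 (Module.finrank k E)

lemma ncard_solutions {N : ℕ} (c : Fin N → E) (hm0 : m ≠ 0) :
    ({y : Fin N → E | y ≠ 0 ∧ ∑ j, c j * y j ^ m = 0}.ncard : ℂ) =
      (Nat.card {y : Fin N → E // ∑ j, c j * y j ^ m = 0} : ℂ) - 1 := by
  classical
  have h1 : {y : Fin N → E | y ≠ 0 ∧ ∑ j, c j * y j ^ m = 0} =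
      {y : Fin N → E | ∑ j, c j * y j ^ m = 0} \ {0} := by
    ext y
    simp only [Set.mem_ofPred_eq, Set.mem_sdiff, Set.mem_singleton_iff]
    tauto
  have h0 : (0 : Fin N → E) ∈ {y : Fin N → E | ∑ j, c j * y j ^ m = 0} := by
    simp [hm0]
  rw [h1, Set.ncard_sdiff_singleton_of_mem h0, Nat.cast_sub]
  · rw [Nat.cast_one]
    rfl
  · exact Nat.one_le_iff_ne_zero.2 (Set.ncard_ne_zero_of_mem h0)

/-- the trace on the primitive cohomology of one hypersurface -/
lemma trace_block (hm : m ∣ Fintype.card k - 1) (χ : MulChar k ℂ) (hχ : orderOf χ = m)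
    {ψ : AddChar k ℂ} (hψ : ψ ≠ 1) {n : ℕ} (c : Fin (n + 2) → E) (hc : ∀ j, c j ≠ 0) :
    (-1) ^ n * (({y : Fin (n + 2) → E | y ≠ 0 ∧ ∑ j, c j * y j ^ m = 0}.ncard : ℂ) /
      (Fintype.card E - 1) - ∑ l ∈ range (n + 1), (Fintype.card E : ℂ) ^ l) =
      ∑ s ∈ chars m (Fin (n + 2)), (∏ j, (χ⁻¹) (Algebra.norm k (c j)) ^ (s j).val) *
        ((-1) ^ n * (Fintype.card k : ℂ)⁻¹ * ∏ j, gaussSum (χ ^ (s j).val) ψ) ^
          Module.finrank k E := by
  classical
  set Q : ℂ := (Fintype.card E : ℂ) with hQ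
  set q : ℂ := (Fintype.card k : ℂ) with hq
  have hq0 : q ≠ 0 := by rw [hq]; exact_mod_cast Fintype.card_ne_zero
  have hQ0 : Q ≠ 0 := by rw [hQ]; exact_mod_cast Fintype.card_ne_zero
  have hQ1 : Q - 1 ≠ 0 := by
    rw [sub_ne_zero, hQ]
    exact_mod_cast Fintype.one_lt_card.ne'
  have hr : 0 < Module.finrank k E := Module.finrank_pos
  have h1 := card_diag (dvd_cardE (E := E) hm) (chE χ E) (by rw [orderOf_chE, hχ])
    (psi_ne_one hψ E) c hc
  rw [Fintype.card_fin] at h1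
  have hgeo : (∑ l ∈ range (n + 1), Q ^ l) * (Q - 1) = Q ^ (n + 1) - 1 := by
    rw [geom_sum_mul]
  have h2 : ∀ s ∈ chars m (Fin (n + 2)), (-1) ^ n * (Q⁻¹ *
      ∏ j, (((chE χ E)⁻¹ ^ (s j).val) (c j) * gaussSum (chE χ E ^ (s j).val) (psi ψ E))) =
      (∏ j, (χ⁻¹) (Algebra.norm k (c j)) ^ (s j).val) *
        ((-1) ^ n * q⁻¹ * ∏ j, gaussSum (χ ^ (s j).val) ψ) ^ Module.finrank k E := by
    intro s hs
    rw [mem_chars] at hs
    have h3 : ∀ j, ((chE χ E)⁻¹ ^ (s j).val) (c j) * gaussSum (chE χ E ^ (s j).val) (psi ψ E) =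
        (χ⁻¹) (Algebra.norm k (c j)) ^ (s j).val * ((-1) ^ (Module.finrank k E - 1) *
          gaussSum (χ ^ (s j).val) ψ ^ Module.finrank k E) := by
      intro j
      have hv : (s j).val ≠ 0 := fun h => hs.1 j ((ZMod.val_eq_zero _).1 h)
      rw [chE_inv, ← chE_pow, ← chE_pow, gauss_E _ hψ, chE_apply, mc_pow_apply _ hv]
    rw [Finset.prod_congr rfl fun j _ => h3 j, Finset.prod_mul_distrib, Finset.prod_mul_distrib,
      Finset.prod_const, Finset.card_univ, Fintype.card_fin, Finset.prod_pow, mul_pow, mul_pow,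
      inv_pow]
    have hQq : Q = q ^ Module.finrank k E := cardE
    rw [hQq]
    have hsign : ((-1 : ℂ) ^ n) * ((-1) ^ (Module.finrank k E - 1)) ^ (n + 2) =
        ((-1) ^ n) ^ Module.finrank k E := by
      obtain ⟨e, he⟩ : ∃ e, Module.finrank k E = e + 1 := ⟨Module.finrank k E - 1, by omega⟩
      rw [he, Nat.add_sub_cancel, ← pow_mul, ← pow_mul, ← pow_add]
      have h4 : n + e * (n + 2) = n * (e + 1) + 2 * e := by ring
      rw [h4, pow_add, pow_mul (-1 : ℂ) 2 e]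
      norm_num
    rw [← hsign]
    ring
  rw [← Finset.sum_congr rfl h2, ← Finset.mul_sum, ← Finset.mul_sum]
  congr 1
  rw [ncard_solutions c (NeZero.ne m), div_sub' hQ1, div_eq_iff hQ1]
  apply mul_left_cancel₀ hQ0
  generalize (∑ s ∈ chars m (Fin (n + 2)),
    ∏ j, (((chE χ E)⁻¹ ^ (s j).val) (c j) * gaussSum (chE χ E ^ (s j).val) (psi ψ E))) = W at h1 ⊢
  have h4 : Q * (Q⁻¹ * W * (Q - 1)) = (Q - 1) * W := by
    field_simp
  rw [h4]
  linear_combination h1 - Q * hgeo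

/-- the trace on the tensor product of the primitive cohomology groups -/
theorem trace_prod (hm : m ∣ Fintype.card k - 1) (χ : MulChar k ℂ) (hχ : orderOf χ = m)
    {ψ : AddChar k ℂ} (hψ : ψ ≠ 1) {r : ℕ} {n : Fin r → ℕ} (hodd : Odd (∑ b, n b))
    (a : ∀ b, Fin (n b + 2) → k[X]) (x : E) (hx : ∀ b j, aeval x (a b j) ≠ 0) :
    ∏ b, ((-1) ^ n b * (({y : Fin (n b + 2) → E | y ≠ 0 ∧
      ∑ j, aeval x (a b j) * y j ^ m = 0}.ncard : ℂ) /
      (Fintype.card E - 1) - ∑ l ∈ range (n b + 1), (Fintype.card E : ℂ) ^ l)) =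
      ∑ s ∈ lines m n, (χ⁻¹) (Algebra.norm k (aeval x (aps a s))) *
        (rho χ ψ s) ^ Module.finrank k E := by
  rw [Finset.prod_congr rfl fun b _ => trace_block hm χ hχ hψ (fun j => aeval x (a b j)) (hx b),
    Finset.prod_univ_sum]
  refine Finset.sum_congr rfl fun s _ => ?_
  rw [Finset.prod_mul_distrib]
  congr 1
  · simp only [aps, map_prod, map_pow]
  · rw [Finset.prod_pow]
    congr 1
    rw [Finset.prod_mul_distrib, Finset.prod_mul_distrib, Finset.prod_const, Finset.card_univ,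
      Fintype.card_fin, Finset.prod_pow_eq_pow_sum, hodd.neg_one_pow, rho, inv_pow]
    ring

end ext

end

end Pool.Agent.Zk8.DH
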