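import Pool.Agent.W484.BB.LFun
import Pool.Agent.Zk8.DH.Trace

/-!
# The L-function of a product of diagonal hypersurfaces over `k(t)`
-/

set_option autoImplicit false
set_option linter.unusedSectionVars false

namespace Pool.Agent.Zk8.DH

open Polynomial Finset
open Pool.Agent.Y145.KS (psi psi_apply psi_ne_one splits_of_dvd_finrank)
open Pool.Agent.W484.BB (fac analyticAt_fac order_fac fac_eq_zero_iff norm_cpow_neg)

section local_factor

variable {k : Type} [Field k] [Fintype k] [DecidableEq k] {m : ℕ} [NeZero m]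

/-- the eigenvalue of the geometric Frobenius at a finite place on the line of `s` -/
noncomputable def eig (χ : MulChar k ℂ) (ψ : AddChar k ℂ) {r : ℕ} {n : Fin r → ℕ}
    (a : ∀ b, Fin (n b + 2) → k[X]) (s : ∀ b, Fin (n b + 2) → ZMod m) (P : k[X]) : ℂ :=
  lamA χ⁻¹ (aps a s) P * rho χ ψ s ^ P.natDegree

theorem local_factor (hm : m ∣ Fintype.card k - 1) (χ : MulChar k ℂ) (hχ : orderOf χ = m)
    {ψ : AddChar k ℂ} (hψ : ψ ≠ 1) {r : ℕ} {n : Fin r → ℕ} (hodd : Odd (∑ b, n b))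
    (a : ∀ b, Fin (n b + 2) → k[X]) (v : FPlace k) (hv : ∀ b j, ¬ v.1 ∣ a b j)
    (A : Multiset ℂ)
    (hA : ∀ (E : Type) [Field E] [Fintype E] [Algebra k E] (x : E), aeval x v.1 = 0 →
      ∏ b, ((-1) ^ n b * (({y : Fin (n b + 2) → E | y ≠ 0 ∧
        ∑ j, aeval x (a b j) * y j ^ m = 0}.ncard : ℂ) /
        (Fintype.card E - 1) - ∑ l ∈ range (n b + 1), (Fintype.card E : ℂ) ^ l)) =
      (A.map fun α => α ^ (Module.finrank k E / v.1.natDegree)).sum) :
    PB A = PB ((lines m n).val.map fun s => eig χ ψ a s v.1) := by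
  classical
  apply PB_ext
  intro l hl
  have hd := deg_pos v
  obtain ⟨E, _, _, _, hE⟩ := exists_ext k (v.1.natDegree * l) (Nat.mul_pos hd hl)
  have hsp := splits_of_dvd_finrank (E := E) v.2.2 (by rw [hE]; exact dvd_mul_right _ _)
  obtain ⟨x, hx⟩ := hsp.exists_eval_eq_zero (by
    rw [degree_map]
    exact (degree_pos_of_irreducible v.2.2).ne')
  rw [eval_map_algebraMap] at hx
  have hmin : minpoly k x = v.1 := (minpoly.eq_of_irreducible_of_monic v.2.2 hx v.2.1).symm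
  have hdiv : Module.finrank k E / v.1.natDegree = l := by
    rw [hE, Nat.mul_div_cancel_left _ hd]
  have hx' : ∀ b j, aeval x (a b j) ≠ 0 := by
    intro b j h0
    apply hv b j
    rw [← hmin]
    exact minpoly.dvd k x h0
  have h1 := hA E x hx
  rw [trace_prod hm χ hχ hψ hodd a x hx', hdiv] at h1
  rw [← h1, Multiset.map_map]
  change ∑ s ∈ lines m n, _ = ∑ s ∈ lines m n, _
  refine Finset.sum_congr rfl fun s _ => ?_
  rw [← lamA_minpoly (E := E) χ⁻¹ (aps a s) x, hmin, hdiv, hE]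
  simp only [Function.comp, eig]
  rw [mul_pow, pow_mul]

lemma PB_map_inv {ι : Type*} (s : Finset ι) (f : ι → ℂ) (T : ℂ) :
    ((PB (s.val.map f)).eval T)⁻¹ = ∏ i ∈ s, (1 - f i * T)⁻¹ := by
  rw [PB_eval, Multiset.map_map, Finset.prod_inv_distrib]
  rfl

lemma mprod_inv (A : Multiset ℂ) (T : ℂ) :
    (A.map fun α => (1 - α * T)⁻¹).prod = ((PB A).eval T)⁻¹ := by
  rw [PB_eval, ← Multiset.prod_map_inv]

end local_factor

section analytic

lemma order_zero {f : ℂ → ℂ} {z : ℂ} (h : AnalyticAt ℂ f z) (h0 : f z ≠ 0) :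
    meromorphicOrderAt f z = 0 := by
  rw [h.meromorphicOrderAt_eq, h.analyticOrderAt_eq_zero.2 h0]
  rfl

lemma analyticAt_qz {q : ℝ} (hq : 0 < q) (z : ℂ) : AnalyticAt ℂ (fun z : ℂ => (q : ℂ) ^ (-z)) z := by
  have h1 := (analyticAt_fac q hq 1 z)
  have h2 : (fun z : ℂ => (q : ℂ) ^ (-z)) = fun z => 1 - fac q 1 z := by
    funext w
    simp [fac]
  rw [h2]
  exact analyticAt_const.sub h1

/-- the Euler factor at a bad place -/
lemma bad_factor {q : ℝ} (hq : 0 < q) (A : Multiset ℂ) (d : ℕ) :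
    (∀ z : ℂ, MeromorphicAt
      (fun z : ℂ => (A.map fun α => (1 - α * ((q : ℂ) ^ (-z)) ^ d)⁻¹).prod) z) ∧
    ∀ z : ℂ, (∀ α ∈ A, α * ((q : ℂ) ^ (-z)) ^ d ≠ 1) →
      AnalyticAt ℂ (fun z : ℂ => (A.map fun α => (1 - α * ((q : ℂ) ^ (-z)) ^ d)⁻¹).prod) z ∧
      (A.map fun α => (1 - α * ((q : ℂ) ^ (-z)) ^ d)⁻¹).prod ≠ 0 := by
  have ha : ∀ (α z : ℂ), AnalyticAt ℂ (fun z : ℂ => 1 - α * ((q : ℂ) ^ (-z)) ^ d) z := by
    intro α z
    exact analyticAt_const.sub (analyticAt_const.mul ((analyticAt_qz hq z).pow d))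
  induction A using Multiset.induction_on with
  | empty =>
    refine ⟨fun z => ?_, fun z _ => ⟨?_, ?_⟩⟩
    · simp only [Multiset.map_zero, Multiset.prod_zero]
      exact MeromorphicAt.const 1 z
    · simp only [Multiset.map_zero, Multiset.prod_zero]
      exact analyticAt_const
    · simp
  | cons α A ih =>
    refine ⟨fun z => ?_, fun z hz => ?_⟩
    · simp only [Multiset.map_cons, Multiset.prod_cons]
      exact ((ha α z).meromorphicAt.inv).mul (ih.1 z)
    · have h1 := ih.2 z fun β hβ => hz β (Multiset.mem_cons_of_mem hβ)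
      have h2 : 1 - α * ((q : ℂ) ^ (-z)) ^ d ≠ 0 :=
        sub_ne_zero.2 (hz α (Multiset.mem_cons_self _ _)).symm
      simp only [Multiset.map_cons, Multiset.prod_cons]
      exact ⟨((ha α z).inv h2).mul h1.1, mul_ne_zero (inv_ne_zero h2) h1.2⟩

open scoped Classical in
/-- the order of a product of linear factors -/
lemma order_PB {q : ℝ} (hq : 1 < q) (B : Multiset ℂ) (ρ : ℂ) (i : ℕ) :
    (∀ z : ℂ, MeromorphicAt (fun z : ℂ => (PB B).eval (ρ * (q : ℂ) ^ (-z))) z) ∧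
    meromorphicOrderAt (fun z : ℂ => (PB B).eval (ρ * (q : ℂ) ^ (-z))) i =
      ((Multiset.card (B.filter fun β => β * ρ = (q : ℂ) ^ i) : ℕ) : ℤ) := by
  have hq0 : 0 < q := by linarith
  have hf : ∀ β : ℂ, (fun z : ℂ => 1 - β * (ρ * (q : ℂ) ^ (-z))) = fac q (β * ρ) := by
    intro β
    funext z
    rw [fac, mul_assoc]
  induction B using Multiset.induction_on with
  | empty =>
    simp only [PB_zero, eval_one]
    refine ⟨fun z => MeromorphicAt.const 1 z, ?_⟩
    rw [order_zero analyticAt_const one_ne_zero]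
    simp
  | cons β B ih =>
    have h1 : (fun z : ℂ => (PB (β ::ₘ B)).eval (ρ * (q : ℂ) ^ (-z))) =
        fun z => fac q (β * ρ) z * (PB B).eval (ρ * (q : ℂ) ^ (-z)) := by
      funext z
      rw [PB_cons, eval_mul, ← hf β]
      simp
    refine ⟨fun z => ?_, ?_⟩
    · rw [h1]
      exact (analyticAt_fac q hq0 _ z).meromorphicAt.mul (ih.1 z)
    · rw [h1, fun_meromorphicOrderAt_mul (analyticAt_fac q hq0 _ _).meromorphicAt (ih.1 _), ih.2,
        order_fac q hq]
      simp only [fac_eq_zero_iff q hq0]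
      split_ifs with h
      · rw [Multiset.filter_cons_of_pos (p := fun β => β * ρ = (q : ℂ) ^ i) _ h,
          Multiset.card_cons]
        push_cast
        rw [add_comm]
      · rw [Multiset.filter_cons_of_neg (p := fun β => β * ρ = (q : ℂ) ^ i) _ h, zero_add]

end analytic

section main

variable {k : Type} [Field k] [Fintype k] [DecidableEq k] {m : ℕ} [NeZero m]

/-- the degree of a place -/
noncomputable def pdeg (v : Option (FPlace k)) : ℕ := v.elim 1 fun w => w.1.natDegree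

lemma qpow_cpow (q d : ℕ) (z : ℂ) : (((q ^ d : ℕ) : ℂ)) ^ (-z) = ((q : ℂ) ^ (-z)) ^ d := by
  induction d with
  | zero => simp
  | succ d ih =>
    rw [pow_succ, pow_succ, Nat.cast_mul, Complex.natCast_mul_natCast_cpow, ih]

lemma norm_rho (χ : MulChar k ℂ) (hχ : orderOf χ = m)
    {ψ : AddChar k ℂ} (hψ : ψ ≠ 1) {r : ℕ} {n : Fin r → ℕ}
    {s : ∀ b, Fin (n b + 2) → ZMod m} (hs : s ∈ lines m n) :
    ‖rho χ ψ s‖ ^ 2 = (Fintype.card k : ℝ) ^ (∑ b, n b) := by
  rw [mem_lines] at hs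
  have hq : (0 : ℝ) < Fintype.card k := by exact_mod_cast Fintype.card_pos
  have h1 : ∀ b j, ‖gaussSum (χ ^ (s b j).val) ψ‖ ^ 2 = Fintype.card k := by
    intro b j
    refine norm_gaussSum (fun h => (hs b).1 j ?_) hψ
    have h3 := orderOf_dvd_of_pow_eq_one h
    rw [hχ] at h3
    have h4 := Nat.eq_zero_of_dvd_of_lt h3 (ZMod.val_lt _)
    exact (ZMod.val_eq_zero _).1 h4
  unfold rho
  rw [norm_mul, norm_neg, norm_inv, norm_pow, Complex.norm_natCast, norm_prod, mul_pow,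
    ← Finset.prod_pow]
  have h2 : ∀ b ∈ univ, ‖∏ j, gaussSum (χ ^ (s b j).val) ψ‖ ^ 2 =
      (Fintype.card k : ℝ) ^ n b * (Fintype.card k : ℝ) ^ 2 := by
    intro b _
    rw [norm_prod, ← Finset.prod_pow, Finset.prod_congr rfl fun j _ => h1 b j, Finset.prod_const,
      Finset.card_univ, Fintype.card_fin, pow_add]
  rw [Finset.prod_congr rfl h2, Finset.prod_mul_distrib, Finset.prod_const, Finset.card_univ,
    Fintype.card_fin, Finset.prod_pow_eq_pow_sum, inv_pow, ← pow_mul, ← pow_mul, mul_comm r 2]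
  field_simp

lemma dvd_aps {r : ℕ} {n : Fin r → ℕ} (a : ∀ b, Fin (n b + 2) → k[X])
    {s : ∀ b, Fin (n b + 2) → ZMod m} (hs : s ∈ lines m n) (v : FPlace k) :
    v.1 ∣ aps a s ↔ ∃ b j, v.1 ∣ a b j := by
  rw [mem_lines] at hs
  have hp : Prime v.1 := v.2.2.prime
  unfold aps
  rw [hp.dvd_finsetProd_iff]
  constructor
  · rintro ⟨b, -, hb⟩
    rw [hp.dvd_finsetProd_iff] at hb
    obtain ⟨j, -, hj⟩ := hb
    exact ⟨b, j, hp.dvd_of_dvd_pow hj⟩
  · rintro ⟨b, j, h⟩
    refine ⟨b, mem_univ _, ?_⟩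
    rw [hp.dvd_finsetProd_iff]
    exact ⟨j, mem_univ _, dvd_pow h fun h0 => (hs b).1 j ((ZMod.val_eq_zero _).1 h0)⟩

lemma aps_ne_zero {r : ℕ} {n : Fin r → ℕ} {a : ∀ b, Fin (n b + 2) → k[X]}
    (ha : ∀ b j, a b j ≠ 0) (s : ∀ b, Fin (n b + 2) → ZMod m) : aps a s ≠ 0 :=
  Finset.prod_ne_zero_iff.2 fun b _ => Finset.prod_ne_zero_iff.2 fun j _ => pow_ne_zero _ (ha b j)

lemma hasProd_option {V : Type} {f : Option V → ℂ} {c : ℂ} (h : HasProd (fun v : V => f (some v)) c) :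
    HasProd f (f none * c) := by
  classical
  have h1 : HasProd (fun v : Option V => if v = none then f none else 1) (f none) := by
    have := hasProd_ite_eq (none : Option V) (f none)
    convert this using 2
  have h2 : HasProd (fun v : Option V => if v = none then 1 else f v) c := by
    have hinj : Function.Injective (some : V → Option V) := Option.some_injective V
    rw [← hinj.hasProd_iff]
    · convert h using 1
      funext v
      simp
    · intro v hv
      cases v with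
      | none => simp
      | some w => exact absurd ⟨w, rfl⟩ hv
  convert h1.mul h2 using 1
  funext v
  split_ifs with hv
  · rw [hv, mul_one]
  · rw [one_mul]

/-- **The L-function**: continuation, Euler product and order of vanishing. -/
theorem assemble (hm : m ∣ Fintype.card k - 1) (χ : MulChar k ℂ) (hχ : orderOf χ = m)
    {ψ : AddChar k ℂ} (hψ : ψ ≠ 1) {r : ℕ} {n : Fin r → ℕ} {i : ℕ} (hi : ∑ b, n b + 1 = 2 * i)
    (a : ∀ b, Fin (n b + 2) → k[X]) (ha : ∀ b j, a b j ≠ 0)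
    (A : Option (FPlace k) → Multiset ℂ)
    (hgood : ∀ v : FPlace k, (∀ b j, ¬ v.1 ∣ a b j) →
      ∀ (E : Type) [Field E] [Fintype E] [Algebra k E] (x : E), aeval x v.1 = 0 →
      ∏ b, ((-1) ^ n b * (({y : Fin (n b + 2) → E | y ≠ 0 ∧
        ∑ j, aeval x (a b j) * y j ^ m = 0}.ncard : ℂ) /
        (Fintype.card E - 1) - ∑ l ∈ range (n b + 1), (Fintype.card E : ℂ) ^ l)) =
      ((A (some v)).map fun α => α ^ (Module.finrank k E / v.1.natDegree)).sum)
    (hbad0 : ∀ α ∈ A none, ‖α‖ ^ 2 * Fintype.card k ≤ (Fintype.card k : ℝ) ^ (2 * i))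
    (hbad : ∀ v : FPlace k, (∃ b j, v.1 ∣ a b j) → ∀ α ∈ A (some v),
      ‖α‖ ^ 2 * (Fintype.card k : ℝ) ^ v.1.natDegree ≤
        ((Fintype.card k : ℝ) ^ v.1.natDegree) ^ (2 * i))
    (G : (∀ b, Fin (n b + 2) → ZMod m) → ℂ → ℂ) (o : (∀ b, Fin (n b + 2) → ZMod m) → ℕ)
    (hG : ∀ s ∈ lines m n, ∀ x : ℂ, ‖x‖ * Fintype.card k < 1 →
      HasProd (fun v : FPlace k => (1 - lamA χ⁻¹ (aps a s) v.1 * x ^ v.1.natDegree)⁻¹) (G s x))
    (hG1 : ∀ s ∈ lines m n, ∀ z : ℂ, MeromorphicAt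
      (fun z : ℂ => G s (rho χ ψ s * (Fintype.card k : ℂ) ^ (-z))) z)
    (hG2 : ∀ s ∈ lines m n, meromorphicOrderAt
      (fun z : ℂ => G s (rho χ ψ s * (Fintype.card k : ℂ) ^ (-z))) i = ((o s : ℕ) : ℤ)) :
    ∃ Λ : ℂ → ℂ, (∀ z, MeromorphicAt Λ z) ∧
      (∀ z : ℂ, (i : ℝ) + 1 / 2 < z.re → HasProd (fun v : Option (FPlace k) =>
        ((A v).map fun α => (1 - α * (((Fintype.card k ^ pdeg v : ℕ) : ℂ)) ^ (-z))⁻¹).prod) (Λ z)) ∧
      meromorphicOrderAt Λ i = ((∑ s ∈ lines m n, o s : ℕ) : ℤ) := by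
  classical
  have hodd : Odd (∑ b, n b) := by
    rw [Nat.odd_iff]
    omega
  have hq1 : (1 : ℝ) < Fintype.card k := one_lt_q
  have hq0 : (0 : ℝ) < Fintype.card k := by linarith
  set q : ℝ := (Fintype.card k : ℝ) with hq
  have hqc : (Fintype.card k : ℂ) = (q : ℂ) := by rw [hq]; push_cast; rfl
  -- the set of the bad places
  set Bp : k[X] := ∏ b, ∏ j, a b j with hBp
  have hBp0 : Bp ≠ 0 := Finset.prod_ne_zero_iff.2 fun b _ =>
    Finset.prod_ne_zero_iff.2 fun j _ => ha b j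
  have hBpd : ∀ v : FPlace k, v.1 ∣ Bp ↔ ∃ b j, v.1 ∣ a b j := by
    intro v
    have hp : Prime v.1 := v.2.2.prime
    rw [hBp, hp.dvd_finsetProd_iff]
    constructor
    · rintro ⟨b, -, hb⟩
      rw [hp.dvd_finsetProd_iff] at hb
      obtain ⟨j, -, hj⟩ := hb
      exact ⟨b, j, hj⟩
    · rintro ⟨b, j, h⟩
      refine ⟨b, mem_univ _, ?_⟩
      rw [hp.dvd_finsetProd_iff]
      exact ⟨j, mem_univ _, h⟩
  set S := (finite_dvd Bp hBp0).toFinset with hS
  have hSm : ∀ v : FPlace k, v ∈ S ↔ ∃ b j, v.1 ∣ a b j := by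
    intro v
    rw [hS, Set.Finite.mem_toFinset, ← hBpd v]
    rfl
  set H : ℂ → ℂ := fun z => ((A none).map fun α => (1 - α * ((q : ℂ) ^ (-z)) ^ 1)⁻¹).prod *
    ∏ v ∈ S, ((A (some v)).map fun α => (1 - α * ((q : ℂ) ^ (-z)) ^ v.1.natDegree)⁻¹).prod with hH
  set L : ℂ → ℂ := fun z => ∏ s ∈ lines m n, G s (rho χ ψ s * (q : ℂ) ^ (-z)) with hL
  rw [hqc] at hG1 hG2
  refine ⟨fun z => H z * L z, fun z => ?_, fun z hz => ?_, ?_⟩
  · refine MeromorphicAt.mul (MeromorphicAt.mul ((bad_factor hq0 _ _).1 z) ?_) ?_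
    · exact MeromorphicAt.fun_prod fun v _ => (bad_factor hq0 _ _).1 z
    · exact MeromorphicAt.fun_prod fun s hs => hG1 s hs z
  · -- the Euler product
    have hX : ∀ s ∈ lines m n, ‖rho χ ψ s * (q : ℂ) ^ (-z)‖ * q < 1 := by
      intro s hs
      have h1 := norm_rho χ hχ hψ hs
      have h2 := Pool.Agent.W484.BB.norm_of_sq q hq0 _ _ h1
      rw [norm_mul, norm_cpow_neg q hq0, h2, ← Real.rpow_add hq0]
      nth_rewrite 2 [← Real.rpow_one q]
      rw [← Real.rpow_add hq0]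
      refine Real.rpow_lt_one_of_one_lt_of_neg hq1 ?_
      have h3 : ((∑ b, n b : ℕ) : ℝ) + 1 = 2 * i := by exact_mod_cast hi
      linarith
    have h1 : HasProd (fun v : FPlace k => ∏ s ∈ lines m n,
        (1 - lamA χ⁻¹ (aps a s) v.1 * (rho χ ψ s * (q : ℂ) ^ (-z)) ^ v.1.natDegree)⁻¹) (L z) :=
      hasProd_prod fun s hs => hG s hs _ (hX s hs)
    have h2 : HasProd (fun v : FPlace k => if v ∈ S then
        ((A (some v)).map fun α => (1 - α * ((q : ℂ) ^ (-z)) ^ v.1.natDegree)⁻¹).prod else 1)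
        (∏ v ∈ S, ((A (some v)).map fun α =>
          (1 - α * ((q : ℂ) ^ (-z)) ^ v.1.natDegree)⁻¹).prod) := by
      have h3 : HasProd (fun v : FPlace k => if v ∈ S then
        ((A (some v)).map fun α => (1 - α * ((q : ℂ) ^ (-z)) ^ v.1.natDegree)⁻¹).prod else 1)
        (∏ v ∈ S, if v ∈ S then ((A (some v)).map fun α =>
          (1 - α * ((q : ℂ) ^ (-z)) ^ v.1.natDegree)⁻¹).prod else 1) :=
        hasProd_prod_of_ne_finset_one fun v hv => if_neg hv
      convert h3 using 1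
      refine Finset.prod_congr rfl fun v hv => ?_
      rw [if_pos hv]
    have h3 := h2.mul h1
    have h4 : HasProd (fun v : FPlace k =>
        ((A (some v)).map fun α =>
          (1 - α * (((Fintype.card k ^ pdeg (some v) : ℕ) : ℂ)) ^ (-z))⁻¹).prod)
        ((∏ v ∈ S, ((A (some v)).map fun α =>
          (1 - α * ((q : ℂ) ^ (-z)) ^ v.1.natDegree)⁻¹).prod) * L z) := by
      convert h3 using 1
      funext v
      have hpd : pdeg (some v) = v.1.natDegree := rfl
      simp only [qpow_cpow, hpd, hqc]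
      by_cases hv : v ∈ S
      · rw [if_pos hv]
        have h5 : ∏ s ∈ lines m n, (1 - lamA χ⁻¹ (aps a s) v.1 *
            (rho χ ψ s * (q : ℂ) ^ (-z)) ^ v.1.natDegree)⁻¹ = 1 := by
          refine Finset.prod_eq_one fun s hs => ?_
          rw [(lamA_place χ⁻¹ (aps_ne_zero ha s) v).2 ((dvd_aps a hs v).2 ((hSm v).1 hv)),
            zero_mul, sub_zero, inv_one]
        rw [h5, mul_one]
      · rw [if_neg hv, one_mul]
        have hv' : ∀ b j, ¬ v.1 ∣ a b j := by
          intro b j h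
          exact hv ((hSm v).2 ⟨b, j, h⟩)
        have h5 := local_factor hm χ hχ hψ hodd a v hv' (A (some v)) (hgood v hv')
        rw [mprod_inv, h5, PB_map_inv]
        refine Finset.prod_congr rfl fun s _ => ?_
        rw [eig, mul_pow, mul_assoc]
    have h5 := hasProd_option (f := fun v : Option (FPlace k) => ((A v).map fun α =>
          (1 - α * (((Fintype.card k ^ pdeg v : ℕ) : ℂ)) ^ (-z))⁻¹).prod) h4
    convert h5 using 1
    have hpd : pdeg (none : Option (FPlace k)) = 1 := rfl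
    simp only [hH, qpow_cpow, hpd, hqc]
    ring
  · -- the order
    have hqi : (q : ℂ) ^ (-(i : ℂ)) = ((q : ℂ) ^ i)⁻¹ := by
      rw [Complex.cpow_neg, Complex.cpow_natCast]
    have hne : ∀ (d : ℕ), 0 < d → ∀ α : ℂ, ‖α‖ ^ 2 * q ^ d ≤ (q ^ d) ^ (2 * i) →
        α * ((q : ℂ) ^ (-(i : ℂ))) ^ d ≠ 1 := by
      intro d hd α hα h1
      have hQ : 1 < q ^ d := one_lt_pow₀ hq1 hd.ne'
      have hQi : 0 < (q ^ d) ^ (2 * i) := by positivity
      rw [hqi, inv_pow, ← div_eq_mul_inv, div_eq_one_iff_eq (pow_ne_zero _ (pow_ne_zero _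
        (by exact_mod_cast hq0.ne')))] at h1
      have h2 : ‖α‖ ^ 2 = (q ^ d) ^ (2 * i) := by
        rw [h1, norm_pow, norm_pow, Complex.norm_real, Real.norm_of_nonneg hq0.le]
        ring
      rw [h2] at hα
      nlinarith
    have h1 : AnalyticAt ℂ H i ∧ H i ≠ 0 := by
      have e0 := (bad_factor hq0 (A none) 1).2 (i : ℂ) fun α hα => hne 1 one_pos α (by
        rw [pow_one]
        exact hbad0 α hα)
      have e1 : ∀ v ∈ S, _ := fun v hv => (bad_factor hq0 (A (some v)) v.1.natDegree).2 (i : ℂ)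
        fun α hα => hne _ (deg_pos v) α (hbad v ((hSm v).1 hv) α hα)
      refine ⟨e0.1.mul ?_, mul_ne_zero e0.2 ?_⟩
      · exact Finset.analyticAt_fun_prod _ fun v hv => (e1 v hv).1
      · exact Finset.prod_ne_zero_iff.2 fun v hv => (e1 v hv).2
    have h2 : MeromorphicAt L i := MeromorphicAt.fun_prod fun s hs => hG1 s hs _
    rw [fun_meromorphicOrderAt_mul h1.1.meromorphicAt h2, order_zero h1.1 h1.2, zero_add, hL,
      meromorphicOrderAt_fun_prod fun s hs => hG1 s hs _, Finset.sum_congr rfl hG2]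
    push_cast
    rfl

end main

end Pool.Agent.Zk8.DH
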