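import Mathlib

/-!
# Euler products over the places of a function field from power sums
-/

set_option autoImplicit false
set_option linter.unusedSectionVars false

namespace Pool.Agent.Zk8.DH

open Complex

theorem hasSum_fiberw {P : Type*} (deg : P → ℕ) (hdeg : ∀ v, 0 < deg v) (x : ℂ) (hx : ‖x‖ < 1)
    (w : P → ℂ) (hw : ∀ v, ‖w v‖ ≤ 1) (v : P) :
    HasSum (fun m : ℕ => if deg v ∣ m then (deg v : ℂ) * w v ^ (m / deg v) * x ^ m / m else 0)
      (-log (1 - w v * x ^ deg v)) := by
  have h1 : ‖w v * x ^ deg v‖ < 1 := by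
    rw [norm_mul, norm_pow]
    have h2 : ‖x‖ ^ deg v < 1 := pow_lt_one₀ (norm_nonneg _) hx (hdeg v).ne'
    calc ‖w v‖ * ‖x‖ ^ deg v ≤ 1 * ‖x‖ ^ deg v :=
          mul_le_mul_of_nonneg_right (hw v) (by positivity)
      _ < 1 := by rw [one_mul]; exact h2
  have h2 := Complex.hasSum_taylorSeries_neg_log h1
  have hinj : Function.Injective (fun n : ℕ => deg v * n) :=
    fun a b h => Nat.eq_of_mul_eq_mul_left (hdeg v) h
  rw [← hinj.hasSum_iff]
  · convert h2 using 2 with n
    simp only [Function.comp, dvd_mul_right, if_true]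
    have h3 : (deg v : ℂ) ≠ 0 := by exact_mod_cast (hdeg v).ne'
    rw [Nat.mul_div_cancel_left _ (hdeg v)]
    push_cast
    rw [mul_pow, ← pow_mul, mul_assoc, mul_div_mul_left _ _ h3]
  · intro m hm
    rw [if_neg]
    rintro ⟨n, rfl⟩
    exact hm ⟨n, rfl⟩

lemma hasSum_mlog (D : Multiset ℂ) (x : ℂ) (h : ∀ β ∈ D, ‖β * x‖ < 1) :
    HasSum (fun m : ℕ => (D.map fun β => (β * x) ^ m / m).sum)
      ((D.map fun β => -log (1 - β * x)).sum) := by
  induction D using Multiset.induction_on with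
  | empty => simpa using hasSum_zero
  | cons a D ih =>
    simp only [Multiset.map_cons, Multiset.sum_cons]
    exact (Complex.hasSum_taylorSeries_neg_log (h a (Multiset.mem_cons_self a D))).add
      (ih fun β hβ => h β (Multiset.mem_cons_of_mem hβ))

lemma exp_mlog (D : Multiset ℂ) (x : ℂ) (h : ∀ β ∈ D, ‖β * x‖ < 1) :
    exp ((D.map fun β => -log (1 - β * x)).sum) = ((D.map fun β => 1 - β * x).prod)⁻¹ := by
  induction D using Multiset.induction_on with
  | empty => simp
  | cons a D ih =>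
    simp only [Multiset.map_cons, Multiset.sum_cons, Multiset.prod_cons]
    rw [exp_add, ih fun β hβ => h β (Multiset.mem_cons_of_mem hβ), exp_neg, exp_log, mul_inv]
    intro h1
    have h2 := h a (Multiset.mem_cons_self a D)
    rw [← sub_eq_zero.1 h1, norm_one] at h2
    exact lt_irrefl _ h2

/-- **Euler products from power sums.** -/
theorem hasProd_of_psum {P : Type*} (deg : P → ℕ) (hdeg : ∀ v, 0 < deg v)
    (hfin : ∀ m, 0 < m → {v | deg v ∣ m}.Finite) (q : ℝ) (hq : 1 < q) (C : ℝ)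
    (hcount : ∀ m (hm : 0 < m), (∑ v ∈ (hfin m hm).toFinset, (deg v : ℝ)) ≤ C * q ^ m)
    (w : P → ℂ) (hw : ∀ v, ‖w v‖ ≤ 1)
    (D B : Multiset ℂ) (hD : ∀ β ∈ D, ‖β‖ ≤ q) (hB : ∀ β ∈ B, ‖β‖ ≤ q)
    (hps : ∀ m (hm : 0 < m), (∑ v ∈ (hfin m hm).toFinset, (deg v : ℂ) * w v ^ (m / deg v)) =
      (D.map fun β => β ^ m).sum - (B.map fun β => β ^ m).sum)
    (x : ℂ) (hx : ‖x‖ * q < 1) :
    HasProd (fun v => (1 - w v * x ^ deg v)⁻¹)
      ((B.map fun β => 1 - β * x).prod / (D.map fun β => 1 - β * x).prod) := by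
  classical
  have hq0 : 0 < q := by linarith
  have hx1 : ‖x‖ < 1 := by nlinarith [norm_nonneg x]
  have hbx : ∀ β : ℂ, ‖β‖ ≤ q → ‖β * x‖ < 1 := by
    intro β hβ
    rw [norm_mul]
    calc ‖β‖ * ‖x‖ ≤ q * ‖x‖ := mul_le_mul_of_nonneg_right hβ (norm_nonneg _)
      _ < 1 := by rw [mul_comm]; exact hx
  have hDx : ∀ β ∈ D, ‖β * x‖ < 1 := fun β hβ => hbx β (hD β hβ)
  have hBx : ∀ β ∈ B, ‖β * x‖ < 1 := fun β hβ => hbx β (hB β hβ)
  have hC : 0 ≤ C := by
    have h1 := hcount 1 one_pos
    rw [pow_one] at h1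
    have h2 : (0 : ℝ) ≤ ∑ v ∈ (hfin 1 one_pos).toFinset, (deg v : ℝ) :=
      Finset.sum_nonneg fun v _ => Nat.cast_nonneg _
    by_contra h3
    push Not at h3
    nlinarith
  -- the double family
  let f : ℕ × P → ℂ := fun z =>
    if deg z.2 ∣ z.1 then (deg z.2 : ℂ) * w z.2 ^ (z.1 / deg z.2) * x ^ z.1 / z.1 else 0
  have hrow : ∀ m, HasSum (fun v => f (m, v))
      (x ^ m / m * ((D.map fun β => β ^ m).sum - (B.map fun β => β ^ m).sum)) := by
    intro m
    rcases Nat.eq_zero_or_pos m with rfl | hm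
    · have h1 : ∀ v, f (0, v) = 0 := by
        intro v
        simp [f]
      simp only [h1, Nat.cast_zero, div_zero, zero_mul]
      exact hasSum_zero
    · rw [← hps m hm, Finset.mul_sum]
      have h1 : ∑ v ∈ (hfin m hm).toFinset, x ^ m / m * ((deg v : ℂ) * w v ^ (m / deg v)) =
          ∑ v ∈ (hfin m hm).toFinset, f (m, v) := by
        refine Finset.sum_congr rfl fun v hv => ?_
        rw [Set.Finite.mem_toFinset] at hv
        have hv' : deg v ∣ m := hv
        simp only [f]
        rw [if_pos hv']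
        ring
      rw [h1]
      refine hasSum_sum_of_ne_finset_zero fun v hv => ?_
      rw [Set.Finite.mem_toFinset] at hv
      simp only [f]
      exact if_neg hv
  have hnorm : ∀ m v, ‖f (m, v)‖ ≤ if deg v ∣ m then (deg v : ℝ) * ‖x‖ ^ m / m else 0 := by
    intro m v
    simp only [f]
    split_ifs with h
    · rw [norm_div, norm_mul, norm_mul, norm_pow, norm_pow, Complex.norm_natCast,
        Complex.norm_natCast]
      have h1 : ‖w v‖ ^ (m / deg v) ≤ 1 := pow_le_one₀ (norm_nonneg _) (hw v)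
      have h2 : (deg v : ℝ) * ‖w v‖ ^ (m / deg v) ≤ deg v :=
        mul_le_of_le_one_right (Nat.cast_nonneg _) h1
      gcongr
    · simp
  have hrown : ∀ m, Summable (fun v => ‖f (m, v)‖) := fun m => (hrow m).summable.norm
  have hbound : ∀ m, ∑' v, ‖f (m, v)‖ ≤ C * (‖x‖ * q) ^ m := by
    intro m
    have hnn : 0 ≤ C * (‖x‖ * q) ^ m := by positivity
    rcases Nat.eq_zero_or_pos m with rfl | hm
    · have h1 : ∀ v, ‖f (0, v)‖ = 0 := by
        intro v
        simp [f]
      simp only [h1, tsum_zero]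
      exact hnn
    · have h0 : HasSum (fun v => if deg v ∣ m then (deg v : ℝ) * ‖x‖ ^ m / m else 0)
          (∑ v ∈ (hfin m hm).toFinset, ‖x‖ ^ m / m * (deg v : ℝ)) := by
        have h2 : ∑ v ∈ (hfin m hm).toFinset, ‖x‖ ^ m / m * (deg v : ℝ) =
            ∑ v ∈ (hfin m hm).toFinset, (if deg v ∣ m then (deg v : ℝ) * ‖x‖ ^ m / m else 0) := by
          refine Finset.sum_congr rfl fun v hv => ?_
          rw [Set.Finite.mem_toFinset] at hv
          have hv' : deg v ∣ m := hv
          rw [if_pos hv']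
          ring
        rw [h2]
        refine hasSum_sum_of_ne_finset_zero fun v hv => ?_
        rw [Set.Finite.mem_toFinset] at hv
        exact if_neg hv
      have h1 := (hrown m).tsum_le_tsum (hnorm m) h0.summable
      rw [h0.tsum_eq, ← Finset.mul_sum] at h1
      have h3 := hcount m hm
      have hm1 : (1 : ℝ) ≤ m := by exact_mod_cast hm
      calc ∑' v, ‖f (m, v)‖ ≤ ‖x‖ ^ m / m * ∑ v ∈ (hfin m hm).toFinset, (deg v : ℝ) := h1
        _ ≤ ‖x‖ ^ m * (C * q ^ m) := by
            refine mul_le_mul ?_ h3 (Finset.sum_nonneg fun v _ => Nat.cast_nonneg _) (by positivity)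
            exact div_le_self (by positivity) hm1
        _ = C * (‖x‖ * q) ^ m := by rw [mul_pow]; ring
  have hsumm : Summable f := by
    refine Summable.of_norm ?_
    rw [summable_prod_of_nonneg (fun z => norm_nonneg _)]
    refine ⟨hrown, ?_⟩
    refine Summable.of_nonneg_of_le (fun m => tsum_nonneg fun v => norm_nonneg _) hbound ?_
    refine Summable.mul_left _ (summable_geometric_of_lt_one (by positivity) hx)
  obtain ⟨A, hA⟩ := hsumm
  have hA1 := hA.prod_fiberwise hrow
  have hA2 : HasSum (fun m : ℕ => x ^ m / m *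
      ((D.map fun β => β ^ m).sum - (B.map fun β => β ^ m).sum))
      ((D.map fun β => -log (1 - β * x)).sum - (B.map fun β => -log (1 - β * x)).sum) := by
    have h4 : ∀ m : ℕ, x ^ m / m * ((D.map fun β => β ^ m).sum - (B.map fun β => β ^ m).sum) =
        (D.map fun β => (β * x) ^ m / m).sum - (B.map fun β => (β * x) ^ m / m).sum := by
      intro m
      rw [mul_sub, ← Multiset.sum_map_mul_left, ← Multiset.sum_map_mul_left]
      congr 2
      · exact Multiset.map_congr rfl fun β _ => by rw [mul_pow]; ring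
      · exact Multiset.map_congr rfl fun β _ => by rw [mul_pow]; ring
    simp only [h4]
    exact (hasSum_mlog D x hDx).sub (hasSum_mlog B x hBx)
  have hAeq := hA1.unique hA2
  have hB : HasSum (fun v => -log (1 - w v * x ^ deg v)) A := by
    have h1 : HasSum (f ∘ Prod.swap) A := (Equiv.prodComm P ℕ).hasSum_iff.2 hA
    exact h1.prod_fiberwise (fun v => hasSum_fiberw deg hdeg x hx1 w hw v)
  have hne : ∀ z : ℂ, ‖z‖ < 1 → 1 - z ≠ 0 := by
    intro z hz h
    have h1 : z = 1 := (sub_eq_zero.1 h).symm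
    rw [h1, norm_one] at hz
    exact lt_irrefl _ hz
  have hxd : ∀ v, ‖w v * x ^ deg v‖ < 1 := by
    intro v
    rw [norm_mul, norm_pow]
    have h2 : ‖x‖ ^ deg v < 1 := pow_lt_one₀ (norm_nonneg _) hx1 (hdeg v).ne'
    calc ‖w v‖ * ‖x‖ ^ deg v ≤ 1 * ‖x‖ ^ deg v :=
          mul_le_mul_of_nonneg_right (hw v) (by positivity)
      _ < 1 := by rw [one_mul]; exact h2
  have hlog : ∀ z : ℂ, ‖z‖ < 1 → log (1 - z)⁻¹ = -log (1 - z) := by
    intro z hz
    apply Complex.log_inv
    have h1 : 1 - z ∈ slitPlane := by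
      left
      rw [sub_re, one_re]
      have := Complex.re_le_norm z
      linarith
    exact (mem_slitPlane_iff_arg.1 h1).1
  have hP := hasProd_of_hasSum_log (f := fun v => (1 - w v * x ^ deg v)⁻¹) (a := A)
    (fun v => inv_ne_zero (hne _ (hxd v))) (by
      simp only [hlog _ (hxd _)]
      exact hB)
  convert hP using 1
  rw [hAeq, exp_sub, exp_mlog D x hDx, exp_mlog B x hBx, div_eq_mul_inv, div_eq_mul_inv, inv_inv,
    mul_comm]

end Pool.Agent.Zk8.DH
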