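import Mathlib

/-!
# Power sums and reciprocal roots
-/

set_option autoImplicit false
set_option linter.unusedSectionVars false

namespace Pool.Agent.Zk8.DH

open Polynomial Finset

/-- the polynomial with given reciprocal roots -/
noncomputable def PB (B : Multiset ℂ) : ℂ[X] := (B.map fun β => 1 - C β * X).prod

lemma PB_zero : PB 0 = 1 := by simp [PB]

lemma PB_cons (β : ℂ) (B : Multiset ℂ) : PB (β ::ₘ B) = (1 - C β * X) * PB B := by
  simp [PB]

lemma PB_coeff_zero (B : Multiset ℂ) : (PB B).coeff 0 = 1 := by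
  induction B using Multiset.induction_on with
  | empty => simp [PB_zero]
  | cons β B ih => rw [PB_cons, mul_coeff_zero, ih]; simp

lemma PB_eval (B : Multiset ℂ) (x : ℂ) : (PB B).eval x = (B.map fun β => 1 - β * x).prod := by
  induction B using Multiset.induction_on with
  | empty => simp [PB_zero]
  | cons β B ih => rw [PB_cons, eval_mul, ih]; simp

/-- Newton's identities -/
lemma newton (B : Multiset ℂ) (n : ℕ) :
    (n : ℂ) * (PB B).coeff n =
      ∑ m ∈ Icc 1 n, (PB B).coeff (n - m) * (-(B.map fun β => β ^ m).sum) := by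
  induction B using Multiset.induction_on generalizing n with
  | empty =>
    simp only [PB_zero, Multiset.map_zero, Multiset.sum_zero, neg_zero, mul_zero,
      Finset.sum_const_zero, coeff_one]
    split_ifs with h
    · rw [h]; simp
    · simp
  | cons β B ih =>
    rcases n with _ | n
    · simp
    have hc : ∀ j, (PB (β ::ₘ B)).coeff (j + 1) = (PB B).coeff (j + 1) - β * (PB B).coeff j := by
      intro j
      rw [PB_cons, sub_mul, one_mul, coeff_sub, mul_assoc, coeff_C_mul, coeff_X_mul]
    have h0 : (PB (β ::ₘ B)).coeff 0 = (PB B).coeff 0 := by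
      rw [PB_coeff_zero, PB_coeff_zero]
    have e1 := ih (n + 1)
    have e2 := ih n
    -- split off the last term
    have s1 : ∀ f : ℕ → ℂ, ∑ m ∈ Icc 1 (n + 1), f m = ∑ m ∈ Icc 1 n, f m + f (n + 1) := by
      intro f
      rw [Finset.sum_Icc_succ_top (by omega)]
    have s2 : ∀ f : ℕ → ℂ, ∑ m ∈ Icc 1 (n + 1), f m = f 1 + ∑ m ∈ Icc 1 n, f (m + 1) := by
      intro f
      rw [← Finset.sum_Ioc_add_eq_sum_Icc (by omega : 1 ≤ n + 1), add_comm]
      congr 1
      refine Finset.sum_bij' (fun m _ => m - 1) (fun m _ => m + 1) ?_ ?_ ?_ ?_ ?_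
      · intro m hm
        rw [mem_Ioc] at hm
        rw [mem_Icc]
        omega
      · intro m hm
        rw [mem_Icc] at hm
        rw [mem_Ioc]
        omega
      · intro m hm
        rw [mem_Ioc] at hm
        omega
      · intro m _
        omega
      · intro m hm
        rw [mem_Ioc] at hm
        congr 1
        omega
    have t1 : ∑ m ∈ Icc 1 (n + 1), (PB (β ::ₘ B)).coeff (n + 1 - m) *
        (-((β ::ₘ B).map fun β => β ^ m).sum) =
        ∑ m ∈ Icc 1 (n + 1), (PB B).coeff (n + 1 - m) * (-(B.map fun β => β ^ m).sum)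
        - ∑ m ∈ Icc 1 (n + 1), (PB B).coeff (n + 1 - m) * β ^ m
        + β * ∑ m ∈ Icc 1 n, (PB B).coeff (n - m) * ((B.map fun β => β ^ m).sum)
        + ∑ m ∈ Icc 1 n, (PB B).coeff (n - m) * β ^ (m + 1) := by
      rw [s1, s1 (fun m => (PB B).coeff (n + 1 - m) * (-(B.map fun β => β ^ m).sum)),
        s1 (fun m => (PB B).coeff (n + 1 - m) * β ^ m), Nat.sub_self, h0]
      simp only [Multiset.map_cons, Multiset.sum_cons]
      have h1 : ∑ m ∈ Icc 1 n, (PB (β ::ₘ B)).coeff (n + 1 - m) *
          (-(β ^ m + (B.map fun β => β ^ m).sum)) =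
          ∑ m ∈ Icc 1 n, ((PB B).coeff (n + 1 - m) * (-(B.map fun β => β ^ m).sum)
            - (PB B).coeff (n + 1 - m) * β ^ m
            + β * ((PB B).coeff (n - m) * ((B.map fun β => β ^ m).sum))
            + (PB B).coeff (n - m) * β ^ (m + 1)) := by
        refine Finset.sum_congr rfl fun m hm => ?_
        rw [mem_Icc] at hm
        have h2 : n + 1 - m = (n - m) + 1 := by omega
        rw [h2, hc]
        ring
      rw [h1]
      simp only [Finset.sum_add_distrib, Finset.sum_sub_distrib, ← Finset.mul_sum]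
      ring
    have t2 : ∑ m ∈ Icc 1 (n + 1), (PB B).coeff (n + 1 - m) * β ^ m =
        (PB B).coeff n * β + ∑ m ∈ Icc 1 n, (PB B).coeff (n - m) * β ^ (m + 1) := by
      rw [s2]
      congr 1
      · rw [Nat.add_sub_cancel, pow_one]
      · refine Finset.sum_congr rfl fun m _ => ?_
        rw [Nat.add_sub_add_right]
    have t3 : β * ∑ m ∈ Icc 1 n, (PB B).coeff (n - m) * ((B.map fun β => β ^ m).sum) =
        -(β * ((n : ℂ) * (PB B).coeff n)) := by
      rw [e2, ← mul_neg, ← Finset.sum_neg_distrib]
      congr 1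
      exact Finset.sum_congr rfl fun m _ => by ring
    rw [t1, t2, t3, ← e1, hc]
    push_cast
    ring

lemma rec_unique (a : ℂ[X]) (ha : a.coeff 0 = 1) (S T : ℕ → ℂ)
    (hS : ∀ n : ℕ, (n : ℂ) * a.coeff n = ∑ m ∈ Icc 1 n, a.coeff (n - m) * S m)
    (hT : ∀ n : ℕ, (n : ℂ) * a.coeff n = ∑ m ∈ Icc 1 n, a.coeff (n - m) * T m) (n : ℕ)
    (hn : 1 ≤ n) : S n = T n := by
  induction n using Nat.strong_induction_on with
  | _ n ih =>
    have h1 := (hS n).symm.trans (hT n)
    obtain ⟨l, rfl⟩ : ∃ l, n = l + 1 := ⟨n - 1, by omega⟩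
    rw [Finset.sum_Icc_succ_top (by omega), Finset.sum_Icc_succ_top (by omega), Nat.sub_self, ha,
      one_mul, one_mul] at h1
    have h2 : ∑ m ∈ Icc 1 l, a.coeff (l + 1 - m) * S m =
        ∑ m ∈ Icc 1 l, a.coeff (l + 1 - m) * T m := by
      refine Finset.sum_congr rfl fun m hm => ?_
      rw [mem_Icc] at hm
      rw [ih m (by omega) hm.1]
    rw [h2] at h1
    exact add_left_cancel h1

/-- the power sums determine the polynomial -/
theorem PB_ext (A B : Multiset ℂ)
    (h : ∀ m : ℕ, 1 ≤ m → (A.map fun β => β ^ m).sum = (B.map fun β => β ^ m).sum) :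
    PB A = PB B := by
  ext n
  induction n using Nat.strong_induction_on with
  | _ n ih =>
    rcases Nat.eq_zero_or_pos n with rfl | hn
    · rw [PB_coeff_zero, PB_coeff_zero]
    · have h1 := newton A n
      have h2 := newton B n
      have h3 : (n : ℂ) ≠ 0 := by exact_mod_cast hn.ne'
      apply mul_left_cancel₀ h3
      rw [h1, h2]
      refine Finset.sum_congr rfl fun m hm => ?_
      rw [mem_Icc] at hm
      rw [h m hm.1, ih (n - m) (by omega)]

/-- integrality of the roots of a monic polynomial with integral coefficients -/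
lemma isIntegral_root (a : ℂ[X]) (ha : a.Monic) (hi : ∀ n, IsIntegral ℤ (a.coeff n)) (β : ℂ)
    (hβ : a.eval β = 0) : IsIntegral ℤ β := by
  have h1 : a ∈ Polynomial.lifts (algebraMap (integralClosure ℤ ℂ) ℂ) := by
    rw [Polynomial.lifts_iff_coeff_lifts]
    intro n
    exact ⟨⟨a.coeff n, hi n⟩, rfl⟩
  obtain ⟨b, hb, -, hbm⟩ := Polynomial.lifts_and_natDegree_eq_and_monic h1 ha
  have h2 : IsIntegral (integralClosure ℤ ℂ) β := by
    refine ⟨b, hbm, ?_⟩
    rw [← hb, eval_map] at hβ
    exact hβ
  exact isIntegral_trans (R := ℤ) (A := integralClosure ℤ ℂ) β h2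

/-- the reciprocal roots of a polynomial with constant term one -/
theorem exists_PB (a : ℂ[X]) (ha : a.coeff 0 = 1) :
    ∃ B : Multiset ℂ, a = PB B ∧ (∀ β ∈ B, β ≠ 0 ∧ a.eval β⁻¹ = 0) ∧
      ((∀ n, IsIntegral ℤ (a.coeff n)) → ∀ β ∈ B, IsIntegral ℤ β) := by
  have ha0 : a ≠ 0 := by
    rintro rfl
    simp at ha
  have htr : a.natTrailingDegree = 0 := by
    rw [Polynomial.natTrailingDegree_eq_zero]
    right
    rw [ha]
    exact one_ne_zero
  have hm : a.reverse.Monic := by
    rw [Polynomial.Monic, Polynomial.reverse_leadingCoeff, Polynomial.trailingCoeff, htr, ha]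
  have hs := IsAlgClosed.splits a.reverse
  have hprod := hs.eq_prod_roots_of_monic hm
  have hdeg : a.reverse.natDegree = a.natDegree := by
    rw [Polynomial.reverse_natDegree, htr, Nat.sub_zero]
  have hcard : Multiset.card a.reverse.roots = a.natDegree := by
    rw [← hdeg]
    exact (splits_iff_card_roots.1 hs)
  have heval : ∀ x : ℂ, x ≠ 0 → a.eval x = (PB a.reverse.roots).eval x := by
    intro x hx
    have : Invertible x := invertibleOfNonzero hx
    have h1 := Polynomial.eval₂_reverse_mul_pow (RingHom.id ℂ) x a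
    rw [← Polynomial.eval, ← Polynomial.eval, invOf_eq_inv] at h1
    rw [← h1, PB_eval]
    conv_lhs => rw [hprod]
    rw [← hcard, eval_multiset_prod, Multiset.map_map]
    generalize a.reverse.roots = R
    induction R using Multiset.induction_on with
    | empty => simp
    | cons β R ih =>
      simp only [Multiset.map_cons, Multiset.prod_cons, Multiset.card_cons, Function.comp,
        eval_sub, eval_X, eval_C] at ih ⊢
      rw [← ih, pow_succ]
      field_simp
  refine ⟨a.reverse.roots, ?_, ?_, ?_⟩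
  · apply Polynomial.eq_of_infinite_eval_eq
    refine Set.Infinite.mono (s := {x : ℂ | x ≠ 0}) (fun x hx => heval x hx) ?_
    exact (Set.finite_singleton (0 : ℂ)).infinite_compl
  · intro β hβ
    have h0 : β ≠ 0 := by
      rintro rfl
      have h1 := (mem_roots (by
        intro h
        rw [h] at hm
        exact one_ne_zero (hm.symm.trans (by simp)))).1 hβ
      have h2 : a.reverse.eval 0 = 0 := h1
      rw [← coeff_zero_eq_eval_zero, Polynomial.coeff_zero_reverse] at h2
      exact ha0 (leadingCoeff_eq_zero.1 h2)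
    refine ⟨h0, ?_⟩
    rw [heval _ (inv_ne_zero h0), PB_eval]
    apply Multiset.prod_eq_zero
    rw [Multiset.mem_map]
    exact ⟨β, hβ, by rw [mul_inv_cancel₀ h0, sub_self]⟩
  · intro hi β hβ
    have h1 := (mem_roots (by
        intro h
        rw [h] at hm
        exact one_ne_zero (hm.symm.trans (by simp)))).1 hβ
    refine isIntegral_root _ hm (fun n => ?_) β h1
    rw [Polynomial.coeff_reverse]
    exact hi _

end Pool.Agent.Zk8.DH
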