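import Pool.Agent.H435R3.Weil.Lam
import Pool.Agent.Zk8.DH.Newton
import Pool.Agent.Zk8.DH.EP

/-!
# The `L`-function of the Kummer character of a polynomial
-/

set_option autoImplicit false
set_option linter.unusedSectionVars false

namespace Pool.Agent.Zk8.DH

open Polynomial Finset Pool.Agent.H341R2.Sharp Pool.Agent.H435R3.Weil

section

variable {k : Type} [Field k] [Fintype k] [DecidableEq k]

/-- the value at the monic polynomial `h` of the Kummer character of `A` -/
noncomputable def lamA (χ : MulChar k ℂ) (A h : k[X]) : ℂ :=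
  χ (resultant h A h.natDegree A.natDegree)

lemma mc_cases (χ : MulChar k ℂ) (x : k) : χ x = 0 ∨ (χ x) ^ (Fintype.card k - 1) = 1 := by
  by_cases hx : x = 0
  · left
    rw [hx, MulChar.map_zero]
  · right
    rw [← map_pow, FiniteField.pow_card_sub_one_eq_one x hx, map_one]

lemma card_sub_pos : 0 < Fintype.card k - 1 := by
  have : 1 < Fintype.card k := Fintype.one_lt_card
  omega

lemma mc_norm (χ : MulChar k ℂ) {x : k} (hx : x ≠ 0) : ‖χ x‖ = 1 := by
  rcases mc_cases χ x with h | h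
  · exfalso
    have h1 : χ x * χ x⁻¹ = 1 := by rw [← map_mul, mul_inv_cancel₀ hx, map_one]
    rw [h, zero_mul] at h1
    exact zero_ne_one h1
  · exact Complex.norm_eq_one_of_pow_eq_one h (card_sub_pos (k := k)).ne'

lemma mc_norm_le (χ : MulChar k ℂ) (x : k) : ‖χ x‖ ≤ 1 := by
  by_cases hx : x = 0
  · rw [hx, MulChar.map_zero, norm_zero]
    exact zero_le_one
  · exact (mc_norm χ hx).le

lemma mc_integral (χ : MulChar k ℂ) (x : k) : IsIntegral ℤ (χ x) := by
  rcases mc_cases χ x with h | h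
  · rw [h]
    exact isIntegral_zero
  · refine IsIntegral.of_pow (card_sub_pos (k := k)) ?_
    rw [h]
    exact isIntegral_one

lemma lamA_one (χ : MulChar k ℂ) (A : k[X]) : lamA χ A 1 = 1 := by
  unfold lamA
  rw [natDegree_one, resultant_one_left]
  simp

lemma lamA_mul (χ : MulChar k ℂ) (A : k[X]) (g h : k[X]) (hg : g.Monic) (hh : h.Monic) :
    lamA χ A (g * h) = lamA χ A g * lamA χ A h := by
  unfold lamA
  rw [hg.natDegree_mul hh, resultant_mul_left _ _ _ _ le_rfl, map_mul]

lemma lamA_norm_le (χ : MulChar k ℂ) (A h : k[X]) : ‖lamA χ A h‖ ≤ 1 := mc_norm_le χ _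

lemma lamA_eq_zero_iff (χ : MulChar k ℂ) {A h : k[X]} (hA : A ≠ 0) :
    lamA χ A h = 0 ↔ ¬ IsCoprime h A := by
  have h1 : resultant h A h.natDegree A.natDegree = 0 ↔ ¬ IsCoprime h A := by
    rw [resultant_eq_zero_iff]
    exact ⟨fun h => h.2, fun h => ⟨Or.inr hA, h⟩⟩
  rw [← h1]
  constructor
  · intro h2
    by_contra h3
    have := mc_norm χ h3
    unfold lamA at h2
    rw [h2, norm_zero] at this
    exact zero_ne_one this
  · intro h2
    unfold lamA
    rw [h2, MulChar.map_zero]

lemma lamA_C_mul (χ : MulChar k ℂ) {c : k} (hc : c ≠ 0) (A h : k[X]) :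
    lamA χ (C c * A) h = χ c ^ h.natDegree * lamA χ A h := by
  unfold lamA
  rw [natDegree_C_mul hc, resultant_C_mul_right, map_mul, map_pow]

lemma lamPR_eq (χ : MulChar k ℂ) (P : k[X]) {h : k[X]} :
    lamPR χ P 1 h = lamA χ P h := by
  unfold lamPR lamA
  rw [natDegree_one, resultant_one_right]
  simp

/-- **The dichotomy**: the `L`-series of the character is a polynomial, or the character is
geometrically trivial. -/
theorem dich (χ : MulChar k ℂ) (A : k[X]) (hA : A ≠ 0) :
    (∀ n, A.natDegree ≤ n → AL (lamA χ A) n = 0) ∨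
      ∃ ε : ℂ, ‖ε‖ = 1 ∧ ∀ h : k[X], h.Monic → IsCoprime h A → lamA χ A h = ε ^ h.natDegree := by
  set c := A.leadingCoeff with hc
  have hc0 : c ≠ 0 := leadingCoeff_ne_zero.2 hA
  set A' : k[X] := C c⁻¹ * A with hA'
  have hm : A'.Monic := by
    rw [Monic, hA', leadingCoeff_mul, leadingCoeff_C, ← hc, inv_mul_cancel₀ hc0]
  have hAA : A = C c * A' := by
    rw [hA', ← mul_assoc, ← C_mul, mul_inv_cancel₀ hc0, C_1, one_mul]
  have hdeg : A'.natDegree = A.natDegree := by
    rw [hA', natDegree_C_mul (inv_ne_zero hc0)]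
  have hl : ∀ h, lamA χ A h = χ c ^ h.natDegree * lamPR χ A' 1 h := by
    intro h
    rw [lamPR_eq, ← lamA_C_mul χ hc0, ← hAA]
  have hne : ∀ h : k[X], IsCoprime h A → lamPR χ A' 1 h ≠ 0 := by
    intro h hcop h0
    have h1 : lamA χ A h = 0 := by rw [hl, h0, mul_zero]
    exact (lamA_eq_zero_iff χ hA).1 h1 hcop
  by_cases H : ∃ r : k[X], r.Monic ∧ Even r.natDegree ∧ lamPR χ A' 1 r ≠ 0 ∧ lamPR χ A' 1 r ≠ 1
  · left
    obtain ⟨r, hr, hev, h0, h1⟩ := H
    intro n hn
    have h2 := AL_eq_zero χ A' 1 r hm monic_one hr hev h0 h1 n (by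
      rw [natDegree_one, add_zero, hdeg]
      exact hn)
    have h3 : AL (lamA χ A) n = χ c ^ n * AL (lamPR χ A' 1) n := by
      unfold AL
      rw [mul_sum]
      refine Finset.sum_congr rfl fun h hh => ?_
      rw [hl, (mem_Mon.1 hh).2]
    rw [h3, h2, mul_zero]
  · right
    push Not at H
    have key : ∃ ε : ℂ, ε ^ 2 = 1 ∧ ∀ h : k[X], h.Monic → IsCoprime h A →
        lamPR χ A' 1 h = ε ^ h.natDegree := by
      by_cases H2 : ∃ h0 : k[X], h0.Monic ∧ IsCoprime h0 A ∧ ¬ Even h0.natDegree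
      · obtain ⟨h0, hm0, hcop0, hodd⟩ := H2
        have hodd' := Nat.not_even_iff_odd.1 hodd
        have hsq : (lamPR χ A' 1 h0) ^ 2 = 1 := by
          have h1 := H (h0 * h0) (hm0.mul hm0) (by
            rw [hm0.natDegree_mul hm0]
            exact ⟨_, rfl⟩) (hne _ (hcop0.mul_left hcop0))
          rw [lamPR_mul χ A' 1 _ _ hm0 hm0] at h1
          rw [pow_two, h1]
        refine ⟨lamPR χ A' 1 h0, hsq, fun h hh hcop => ?_⟩
        rcases Nat.even_or_odd h.natDegree with he | ho
        · rw [H h hh he (hne h hcop)]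
          obtain ⟨j, hj⟩ := he
          rw [hj, ← two_mul, pow_mul, hsq, one_pow]
        · have h1 := H (h * h0) (hh.mul hm0) (by
            rw [hh.natDegree_mul hm0]
            exact ho.add_odd hodd') (hne _ (hcop.mul_left hcop0))
          rw [lamPR_mul χ A' 1 _ _ hh hm0] at h1
          obtain ⟨j, hj⟩ := ho
          rw [hj, pow_add, pow_mul, hsq, one_pow, one_mul, pow_one]
          have h2 : lamPR χ A' 1 h0 ≠ 0 := hne _ hcop0
          apply mul_right_cancel₀ h2
          rw [h1, ← pow_two, hsq]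
      · push Not at H2
        refine ⟨1, one_pow 2, fun h hh hcop => ?_⟩
        rw [one_pow]
        exact H h hh (H2 h hh hcop) (hne h hcop)
    obtain ⟨ε, hε, he⟩ := key
    refine ⟨χ c * ε, ?_, fun h hh hcop => ?_⟩
    · rw [norm_mul, mc_norm χ hc0, one_mul]
      exact Complex.norm_eq_one_of_pow_eq_one hε two_ne_zero
    · rw [hl, he h hh hcop, mul_pow]

section ext

variable {E : Type} [Field E] [Fintype E] [DecidableEq E] [Algebra k E]

lemma lamA_minpoly (χ : MulChar k ℂ) (A : k[X]) (x : E) :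
    lamA χ A (minpoly k x) ^ (Module.finrank k E / (minpoly k x).natDegree) =
      χ (Algebra.norm k (aeval x A)) := by
  rw [norm_aeval, map_pow]
  rfl

lemma TL_lamA (χ : MulChar k ℂ) (A : k[X]) :
    TL (lamA χ A) (Module.finrank k E) = ∑ x : E, χ (Algebra.norm k (aeval x A)) := by
  rw [TL_eq_sum (E := E)]
  exact Finset.sum_congr rfl fun x _ => lamA_minpoly χ A x

end ext

/-- an extension of given degree -/
lemma exists_ext (k : Type) [Field k] [Fintype k] (m : ℕ) (hm : 1 ≤ m) :
    ∃ (E : Type) (_ : Field E) (_ : Fintype E) (_ : Algebra k E),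
      Module.finrank k E = m := by
  obtain ⟨p, hp⟩ := CharP.exists k
  have : Fact (Nat.Prime p) := ⟨CharP.char_is_prime k p⟩
  have : NeZero m := ⟨by omega⟩
  let E := FiniteField.Extension k p m
  let _ : Fintype E := Fintype.ofFinite E
  exact ⟨E, inferInstance, inferInstance, inferInstance, FiniteField.finrank_extension k p m⟩

lemma card_eq_pow {E : Type} [Field E] [Fintype E] [Algebra k E] :
    Fintype.card E = Fintype.card k ^ Module.finrank k E :=
  Module.card_eq_pow_finrank (K := k) (V := E)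

lemma TL_norm_le (χ : MulChar k ℂ) (A : k[X]) (m : ℕ) (hm : 1 ≤ m) :
    ‖TL (lamA χ A) m‖ ≤ 1 * (Fintype.card k : ℝ) ^ m := by
  classical
  obtain ⟨E, _, _, _, hE⟩ := exists_ext k m hm
  have h1 := TL_lamA (E := E) χ A
  rw [hE] at h1
  rw [h1]
  refine (norm_sum_le _ _).trans ?_
  refine (Finset.sum_le_sum (g := fun _ => (1 : ℝ)) fun x _ => mc_norm_le χ _).trans ?_
  rw [Finset.sum_const, Finset.card_univ, nsmul_eq_mul, mul_one, one_mul,
    card_eq_pow (k := k) (E := E), hE]
  push_cast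
  exact le_rfl

/-- **The trace formula** for a character which is not geometrically trivial. -/
theorem exists_eigen (χ : MulChar k ℂ) (A : k[X])
    (h : ∀ n, A.natDegree ≤ n → AL (lamA χ A) n = 0) :
    ∃ B : Multiset ℂ, (∀ β ∈ B, IsIntegral ℤ β ∧ ‖β‖ ≤ Fintype.card k) ∧
      ∀ m : ℕ, 1 ≤ m → TL (lamA χ A) m = -(B.map fun β => β ^ m).sum := by
  set a : ℂ[X] := ∑ n ∈ range A.natDegree, monomial n (AL (lamA χ A) n) with ha
  have hcoef : ∀ n, a.coeff n = AL (lamA χ A) n := by
    intro n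
    rw [ha, finsetSum_coeff]
    simp only [coeff_monomial]
    by_cases hn : n < A.natDegree
    · rw [Finset.sum_eq_single n]
      · rw [if_pos rfl]
      · intro j _ hj
        rw [if_neg hj]
      · intro h1
        exact absurd (mem_range.2 hn) h1
    · rw [h n (by omega)]
      apply Finset.sum_eq_zero
      intro j hj
      rw [mem_range] at hj
      rw [if_neg (by omega)]
  have h0 : a.coeff 0 = 1 := by rw [hcoef, AL_zero _ (lamA_one χ A)]
  have hid : ∀ n : ℕ, (n : ℂ) * a.coeff n =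
      ∑ m ∈ Icc 1 n, a.coeff (n - m) * TL (lamA χ A) m := by
    intro n
    simp only [hcoef]
    exact n_mul_AL _ (lamA_one χ A) (lamA_mul χ A) n
  have hint : ∀ n, IsIntegral ℤ (a.coeff n) := by
    intro n
    rw [hcoef]
    exact IsIntegral.sum _ fun h _ => mc_integral χ _
  have hq : (0 : ℝ) < Fintype.card k := by exact_mod_cast Fintype.card_pos
  obtain ⟨B, hB1, hB2, hB3⟩ := exists_PB a h0
  refine ⟨B, fun β hβ => ⟨hB3 hint β hβ, ?_⟩, fun m hm => ?_⟩
  · obtain ⟨hβ0, hz⟩ := hB2 β hβ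
    have h1 := root_norm a h0 (TL (lamA χ A)) (Fintype.card k) 1 hq zero_le_one
      (fun m hm => TL_norm_le χ A m hm) hid _ hz
    rw [norm_inv] at h1
    have h2 : 0 < ‖β‖ := norm_pos_iff.2 hβ0
    rw [← div_eq_mul_inv, le_div_iff₀ h2, one_mul] at h1
    exact h1
  · refine rec_unique a h0 (TL (lamA χ A)) (fun m => -(B.map fun β => β ^ m).sum) hid
      (fun n => ?_) m hm
    have h1 := newton B n
    rw [← hB1] at h1
    exact h1

end

end Pool.Agent.Zk8.DH
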