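import Pool.Agent.N214.HB.Gauss

/-!
# Divisibility of products of Gauss sums (Stickelberger)
-/

set_option autoImplicit false
set_option linter.unusedSectionVars false

namespace Pool.Agent.Zk8.DH

open Finset Pool.Agent.Y145.DI Pool.Agent.N214.HB

section

variable {k : Type} [Field k] [Fintype k] {p m : ℕ} [Fact p.Prime] [CharP k p] [NeZero m]

/-- **Stickelberger's theorem**: for every unit `t` there is an embedding of the algebraic numbers
for which the absolute value of the product of the Gauss sums of `θ ^ a`, `a ∈ s`, is given by the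
residues `t * a`. -/
theorem exists_sigma_norm (hmk : m ∣ Fintype.card k - 1) (θ : MulChar k ℂ) (hθ : orderOf θ = m)
    (ψ : AddChar k ℂ) (hψ : ψ ≠ 1) {F : ℕ} (hF : 0 < F) (hcard : Fintype.card k = p ^ F)
    (t : (ZMod m)ˣ) :
    ∃ σ : algebraicClosure ℚ ℂ →+* PadicAlgCl p, ∀ s : Multiset (ZMod m), (0 : ZMod m) ∉ s →
      ‖σ ((s.map fun a => gaussSum (liftChi (θ ^ a.val)) (liftPsi ψ)).prod)‖ ^ m =
        ‖((p : ℕ) : PadicAlgCl p)‖ ^ (s.map fun a => expo p m F (((t : ZMod m) * a).val)).sum := by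
  classical
  have hm : 0 < m := Nat.pos_of_ne_zero (NeZero.ne m)
  obtain ⟨w, ψp, hψp, hψc, hw, ho⟩ := exists_wp (p := p) k
  set T : MulChar k (PadicAlgCl p) := w ^ ((Fintype.card k - 1) / m) with hT
  obtain ⟨g, hg⟩ := IsCyclic.exists_generator (α := kˣ)
  have hTo : orderOf T = m := by
    have hQ1 : 1 < Fintype.card k := Fintype.one_lt_card
    have hd : (Fintype.card k - 1) / m ≠ 0 := by
      have := Nat.div_pos (Nat.le_of_dvd (by omega) hmk) hm
      omega
    rw [hT, orderOf_pow_of_dvd hd (by rw [ho]; exact Nat.div_dvd_of_dvd hmk), ho,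
      Nat.div_div_self hmk (by omega)]
  have hTm : T ^ m = 1 := by rw [← hTo, pow_orderOf_eq_one]
  have hTg : IsPrimitiveRoot (T (g : k)) m := by
    refine IsPrimitiveRoot.mk_of_lt _ hm ?_ ?_
    · rw [← MulChar.pow_apply_coe, hTm, MulChar.one_apply_coe]
    · intro l hl0 hl h2
      have h3 : T ^ l = 1 := by
        apply mulChar_ext_gen hg
        rw [MulChar.pow_apply_coe, h2, MulChar.one_apply_coe]
      exact absurd (orderOf_le_of_pow_eq_one hl0 h3) (by omega)
  set τ := (t : ZMod m).val with hτ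
  have hz : IsPrimitiveRoot ((T (g : k))⁻¹ ^ τ) m :=
    hTg.inv.pow_of_coprime τ (ZMod.val_coe_unit_coprime t)
  obtain ⟨σ, hσ⟩ := exists_sigma (p := p) hθ hg hz
  refine ⟨σ, fun s h0 => ?_⟩
  set ψs : AddChar k (PadicAlgCl p) := (σ : _ →* PadicAlgCl p).compAddChar (liftPsi ψ) with hψs
  obtain ⟨c0, hc0⟩ := exists_shift (ψ' := ψs) hψp
  have hc00 : c0 ≠ 0 := by
    rintro rfl
    rw [AddChar.mulShift_zero] at hc0
    apply hψ
    ext x
    have h1 : σ (liftPsi ψ x) = 1 := by
      have := congrArg (fun f : AddChar k (PadicAlgCl p) => f x) hc0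
      simpa [hψs] using this
    have h2 : liftPsi ψ x = 1 := σ.injective (h1.trans (map_one σ).symm)
    exact congrArg Subtype.val h2
  have hchi : (liftChi θ).ringHomComp σ = (T ^ τ)⁻¹ := by
    apply mulChar_ext_gen hg
    rw [MulChar.ringHomComp_apply, hσ, MulChar.inv_apply_eq_inv', inv_pow]
    congr 1
    exact (MulChar.pow_apply_coe T τ g).symm
  have hgs : ∀ a : ZMod m, σ (gaussSum (liftChi (θ ^ a.val)) (liftPsi ψ))
      = gaussSum ((T ^ ((t : ZMod m) * a).val)⁻¹) ψs := by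
    intro a
    rw [map_gauss, liftChi_pow]
    congr 1
    rw [← MulChar.ringHomComp_pow, hchi, inv_pow, ← pow_mul]
    congr 1
    rw [pow_eq_pow_iff_modEq, hTo]
    rw [← ZMod.natCast_eq_natCast_iff]
    push_cast
    simp only [hτ, ZMod.natCast_zmod_val]
  have h6 : ‖σ ((s.map fun a => gaussSum (liftChi (θ ^ a.val)) (liftPsi ψ)).prod)‖
      = (s.map fun a => ‖gaussSum ((T ^ ((t : ZMod m) * a).val)⁻¹) ψp‖).prod := by
    rw [map_multiset_prod, Multiset.map_map]
    have h7 : ‖(s.map fun a => σ (gaussSum (liftChi (θ ^ a.val)) (liftPsi ψ))).prod‖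
        = (s.map fun a => ‖σ (gaussSum (liftChi (θ ^ a.val)) (liftPsi ψ))‖).prod :=
      (map_multiset_prod (normHom : PadicAlgCl p →*₀ ℝ) _).trans (by rw [Multiset.map_map]; rfl)
    refine h7.trans (congrArg Multiset.prod (Multiset.map_congr rfl fun a _ => ?_))
    rw [hgs a, hc0, norm_gauss_shift _ _ hc00]
  have h4 : ∀ a ∈ s, ‖gaussSum ((T ^ ((t : ZMod m) * a).val)⁻¹) ψp‖ ^ m
      = ‖((p : ℕ) : PadicAlgCl p)‖ ^ expo p m F (((t : ZMod m) * a).val) := by
    intro a ha
    have ha0 : (t : ZMod m) * a ≠ 0 := by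
      intro h5
      have h6 := (Units.mul_right_eq_zero t).1 h5
      exact h0 (h6 ▸ ha)
    exact norm_gauss_eq w ψp hψp hψc hw ho hcard hmk hF _
      (Nat.pos_of_ne_zero fun h5 => ha0 ((ZMod.val_eq_zero _).1 h5)) (ZMod.val_lt _)
  rw [h6, ← Multiset.prod_map_pow, Multiset.map_congr rfl h4]
  have h7 : ∀ (s' : Multiset (ZMod m)) (E : ZMod m → ℕ) (P : ℝ),
      (s'.map fun a => P ^ E a).prod = P ^ (s'.map E).sum := by
    intro s' E P
    induction s' using Multiset.induction_on with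
    | empty => simp
    | cons a s' ih => simp only [Multiset.map_cons, Multiset.prod_cons, Multiset.sum_cons,
        pow_add, ih]
  exact h7 _ _ _

/-- the exponents in terms of the residues -/
lemma expo_eq {F : ℕ} (n : ℕ) (hn : F = n * orderOf (p : ZMod m)) (a : ZMod m) :
    expo p m F a.val = n * ∑ j ∈ range (orderOf (p : ZMod m)), ((p : ZMod m) ^ j * a).val := by
  have h1 : expo p m F a.val = ∑ j ∈ range (n * orderOf (p : ZMod m)),
      ((p : ZMod m) ^ j * a).val := by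
    rw [expo, hn]
    refine Finset.sum_congr rfl fun s _ => ?_
    rw [← ZMod.val_natCast]
    congr 1
    push_cast
    rw [ZMod.natCast_zmod_val, mul_comm]
  rw [h1]
  exact sum_periodic (f := orderOf (p : ZMod m)) (fun j => ((p : ZMod m) ^ j * a).val)
    (fun j => by rw [pow_add, pow_orderOf_eq_one, mul_one]) n

lemma coprime_of_card (hmk : m ∣ Fintype.card k - 1) : Nat.Coprime p m := by
  obtain ⟨F, hpr, hcard⟩ := FiniteField.card k p
  rw [Nat.Prime.coprime_iff_not_dvd hpr]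
  intro h1
  have h2 : p ∣ Fintype.card k - 1 := h1.trans hmk
  have h3 : p ∣ Fintype.card k := by
    rw [hcard]
    exact dvd_pow_self p F.pos.ne'
  have hQ1 : 1 < Fintype.card k := Fintype.one_lt_card
  have h10 : p ∣ 1 := (Nat.dvd_sub_iff_right hQ1.le h3).1 h2
  exact hpr.one_lt.ne' (Nat.dvd_one.1 h10)

lemma norm_le_one_of_isIntegral {x : PadicAlgCl p} (h : IsIntegral ℤ x) : ‖x‖ ≤ 1 := by
  by_contra hx
  push Not at hx
  obtain ⟨f, hf, hfx⟩ := h
  have h1 : x ^ f.natDegree = - ∑ i ∈ range f.natDegree, (f.coeff i : PadicAlgCl p) * x ^ i := by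
    have h2 : Polynomial.eval₂ (algebraMap ℤ (PadicAlgCl p)) x f = 0 := hfx
    rw [Polynomial.eval₂_eq_sum_range, Finset.sum_range_succ, hf.coeff_natDegree] at h2
    have h3 : algebraMap ℤ (PadicAlgCl p) 1 * x ^ f.natDegree = x ^ f.natDegree := by simp
    rw [h3] at h2
    exact eq_neg_of_add_eq_zero_right h2
  have hint : ∀ n : ℤ, ‖(n : PadicAlgCl p)‖ ≤ 1 := by
    intro n
    have h2 : ((n : ℤ) : PadicAlgCl p) = algebraMap ℚ_[p] (PadicAlgCl p) (n : ℚ_[p]) := by
      rw [map_intCast]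
    have h3 : ‖algebraMap ℚ_[p] (PadicAlgCl p) (n : ℚ_[p])‖ = ‖(n : ℚ_[p])‖ :=
      PadicAlgCl.norm_extends _ _
    rw [h2, h3]
    exact Padic.norm_int_le_one n
  have hd : f.natDegree ≠ 0 := by
    intro h0
    rw [h0] at h1
    simp at h1
  have h4 : ‖x ^ f.natDegree‖ ≤ ‖x‖ ^ (f.natDegree - 1) := by
    rw [h1, norm_neg]
    refine IsUltrametricDist.norm_sum_le_of_forall_le_of_nonneg (by positivity) fun i hi => ?_
    rw [mem_range] at hi
    rw [norm_mul, norm_pow]
    calc ‖(f.coeff i : PadicAlgCl p)‖ * ‖x‖ ^ i ≤ 1 * ‖x‖ ^ (f.natDegree - 1) := by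
          refine mul_le_mul (hint _) (pow_le_pow_right₀ hx.le (by omega)) (by positivity) zero_le_one
      _ = _ := one_mul _
  rw [norm_pow] at h4
  have h5 : ‖x‖ ^ (f.natDegree - 1) < ‖x‖ ^ f.natDegree :=
    pow_lt_pow_right₀ hx (by omega)
  linarith

/-- If the product of the Gauss sums of `θ ^ a`, `a ∈ s`, divides `q ^ c` in the ring of algebraic
integers, then the slopes are bounded. -/
theorem slopes_le (hmk : m ∣ Fintype.card k - 1) (θ : MulChar k ℂ) (hθ : orderOf θ = m)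
    (ψ : AddChar k ℂ) (hψ : ψ ≠ 1) (s : Multiset (ZMod m)) (h0 : (0 : ZMod m) ∉ s)
    (c : ℕ) (β : ℂ) (hβ : IsIntegral ℤ β)
    (h : (s.map fun a => gaussSum (θ ^ a.val) ψ).prod * β = (Fintype.card k : ℂ) ^ c)
    (t : (ZMod m)ˣ) :
    (s.map fun a => ∑ j ∈ range (orderOf (p : ZMod m)),
      ((p : ZMod m) ^ j * ((t : ZMod m) * a)).val).sum ≤ orderOf (p : ZMod m) * (m * c) := by
  classical
  have hm : 0 < m := Nat.pos_of_ne_zero (NeZero.ne m)
  obtain ⟨F, hpr, hcard⟩ := FiniteField.card k p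
  obtain ⟨n, hn⟩ : orderOf (p : ZMod m) ∣ (F : ℕ) := by
    apply orderOf_dvd_of_pow_eq_one
    have h1 : ((Fintype.card k - 1 : ℕ) : ZMod m) = 0 := (ZMod.natCast_eq_zero_iff _ _).2 hmk
    rw [Nat.cast_sub Fintype.card_pos, hcard, sub_eq_zero] at h1
    push_cast at h1
    exact h1
  have hn0 : 0 < n := by
    rcases Nat.eq_zero_or_pos n with h1 | h1
    · rw [h1, mul_zero] at hn
      exact absurd hn F.pos.ne'
    · exact h1
  obtain ⟨σ, hσ⟩ := exists_sigma_norm (p := p) hmk θ hθ ψ hψ F.pos hcard t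
  have h1 := hσ s h0
  -- `β` as an algebraic number
  have hβa : β ∈ algebraicClosure ℚ ℂ := by
    rw [mem_algebraicClosure_iff]
    exact hβ.tower_top.isAlgebraic
  set b : algebraicClosure ℚ ℂ := ⟨β, hβa⟩ with hb
  have hbi : IsIntegral ℤ b := by
    have h2 : IsIntegral ℤ ((algebraicClosure ℚ ℂ).val b) := hβ
    exact (isIntegral_algHom_iff ((algebraicClosure ℚ ℂ).val.restrictScalars ℤ)
      (algebraicClosure ℚ ℂ).val.injective).1 h2
  have hσb : ‖σ b‖ ≤ 1 := norm_le_one_of_isIntegral (hbi.map (σ.toIntAlgHom))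
  have h2 : (s.map fun a => gaussSum (liftChi (θ ^ a.val)) (liftPsi ψ)).prod * b =
      (Fintype.card k : algebraicClosure ℚ ℂ) ^ c := by
    apply (algebraicClosure ℚ ℂ).val.injective
    rw [map_mul, map_pow, map_natCast, map_multiset_prod, Multiset.map_map, ← h]
    congr 2
    exact Multiset.map_congr rfl fun a _ => coe_gauss _ _
  have h3 := congrArg (fun z => ‖σ z‖ ^ m) h2
  simp only [map_mul, norm_mul, mul_pow, map_pow, map_natCast, norm_pow, hcard] at h3
  rw [h1] at h3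
  push_cast at h3
  rw [norm_pow, ← pow_mul, ← pow_mul] at h3
  obtain ⟨hp0, hp1⟩ := norm_p_lt (p := p)
  have h4 : ‖((p : ℕ) : PadicAlgCl p)‖ ^ ((F : ℕ) * (c * m)) ≤
      ‖((p : ℕ) : PadicAlgCl p)‖ ^ (s.map fun a => expo p m F (((t : ZMod m) * a).val)).sum := by
    rw [← h3]
    exact mul_le_of_le_one_right (by positivity) (pow_le_one₀ (norm_nonneg _) hσb)
  have h5 : (s.map fun a => expo p m F (((t : ZMod m) * a).val)).sum ≤ (F : ℕ) * (c * m) := by
    by_contra hlt
    push Not at hlt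
    exact absurd (pow_lt_pow_right_of_lt_one₀ hp0 hp1 hlt) (not_lt.2 h4)
  rw [Multiset.map_congr rfl fun a _ => expo_eq (p := p) (m := m) n (by rw [hn, mul_comm]) _,
    Multiset.sum_map_mul_left, hn] at h5
  refine Nat.le_of_mul_le_mul_left (h5.trans (le_of_eq ?_)) hn0
  ring

end

end Pool.Agent.Zk8.DH
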