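import Pool.Agent.Zk8.DH.Assemble
import Pool.Agent.Zk8.DH.Stick

/-!
# The order of vanishing for arbitrary coefficients
-/

set_option autoImplicit false
set_option linter.unusedSectionVars false

namespace Pool.Agent.Zk8.DH

open Polynomial Finset
open Pool.Agent.Y145.KS (psi psi_apply psi_ne_one splits_of_dvd_finrank)
open Pool.Agent.W484.BB (fac analyticAt_fac order_fac fac_eq_zero_iff norm_cpow_neg)

section

variable {k : Type} [Field k] [Fintype k] [DecidableEq k] {m : ℕ} [NeZero m]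

/-- the multiset of all the residues of `s` -/
def resid {r : ℕ} {n : Fin r → ℕ} (s : ∀ b, Fin (n b + 2) → ZMod m) : Multiset (ZMod m) :=
  (Finset.univ : Finset (Σ b, Fin (n b + 2))).val.map fun x => s x.1 x.2

lemma resid_prod {M : Type*} [CommMonoid M] {r : ℕ} {n : Fin r → ℕ}
    (s : ∀ b, Fin (n b + 2) → ZMod m) (f : ZMod m → M) :
    ((resid s).map f).prod = ∏ b, ∏ j, f (s b j) := by
  rw [resid, Multiset.map_map, Finset.prod_map_val, ← Finset.univ_sigma_univ, Finset.prod_sigma]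
  rfl

lemma resid_card {r : ℕ} {n : Fin r → ℕ} (s : ∀ b, Fin (n b + 2) → ZMod m) :
    Multiset.card (resid s) = ∑ b, n b + 2 * r := by
  rw [resid, Multiset.card_map, Finset.card_val, Finset.card_univ, Fintype.card_sigma]
  simp only [Fintype.card_fin]
  rw [Finset.sum_add_distrib, Finset.sum_const, Finset.card_univ, Fintype.card_fin, smul_eq_mul,
    mul_comm r 2]

lemma resid_sum {r : ℕ} {n : Fin r → ℕ} {s : ∀ b, Fin (n b + 2) → ZMod m} (hs : s ∈ lines m n) :
    (resid s).sum = 0 := by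
  rw [mem_lines] at hs
  rw [resid]
  have h1 : ((Finset.univ : Finset (Σ b, Fin (n b + 2))).val.map fun x => s x.1 x.2).sum =
      ∑ x : (Σ b, Fin (n b + 2)), s x.1 x.2 := rfl
  rw [h1, ← Finset.univ_sigma_univ, Finset.sum_sigma]
  exact Finset.sum_eq_zero fun b _ => (hs b).2

lemma resid_zero {r : ℕ} {n : Fin r → ℕ} {s : ∀ b, Fin (n b + 2) → ZMod m} (hs : s ∈ lines m n) :
    (0 : ZMod m) ∉ resid s := by
  rw [mem_lines] at hs
  rw [resid, Multiset.mem_map]
  rintro ⟨x, -, h⟩
  exact (hs x.1).1 x.2 h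

end

section slopes

variable {k : Type} [Field k] [Fintype k] {p m : ℕ} [Fact p.Prime] [CharP k p] [NeZero m]

/-- integrality of the eigenvalue forces the lower bound of the slopes -/
theorem coniveau (hmk : m ∣ Fintype.card k - 1) (χ : MulChar k ℂ) (hχ : orderOf χ = m)
    {ψ : AddChar k ℂ} (hψ : ψ ≠ 1) {r : ℕ} {n : Fin r → ℕ} {i : ℕ} (hi : ∑ b, n b + 1 = 2 * i)
    {s : ∀ b, Fin (n b + 2) → ZMod m} (hs : s ∈ lines m n) {β : ℂ} (hβ : IsIntegral ℤ β)
    (h : β * rho χ ψ s = (Fintype.card k : ℂ) ^ i) (t : (ZMod m)ˣ) :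
    orderOf (p : ZMod m) * (m * (i + r - 2 + 1)) ≤
      ∑ j ∈ Finset.range (orderOf (p : ZMod m)),
        ((resid s).map fun a => ((p : ZMod m) ^ j * ((t : ZMod m) * a)).val).sum := by
  classical
  have hm0 : 0 < m := Nat.pos_of_ne_zero (NeZero.ne m)
  have hr : 1 ≤ r := by
    rcases Nat.eq_zero_or_pos r with h0 | h0
    · subst h0
      simp at hi
      omega
    · exact h0
  have hi1 : 1 ≤ i := by omega
  have hq0 : (Fintype.card k : ℂ) ≠ 0 := by exact_mod_cast Fintype.card_ne_zero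
  have h1 : ((resid s).map fun a => gaussSum (χ ^ a.val) ψ).prod * (-β) =
      (Fintype.card k : ℂ) ^ (i + r) := by
    rw [resid_prod s (fun a => gaussSum (χ ^ a.val) ψ), pow_add, ← h, rho]
    field_simp
  have h2 := slopes_le (p := p) hmk χ hχ ψ hψ (resid s) (resid_zero hs) (i + r) (-β) hβ.neg h1 (-t)
  set f := orderOf (p : ZMod m) with hf
  have hcop : Nat.Coprime p m := coprime_of_card (k := k) hmk
  have hpu : ∀ j : ℕ, IsUnit ((p : ZMod m) ^ j) := fun j =>
    ((ZMod.isUnit_iff_coprime p m).2 hcop).pow j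
  have h3 : ∀ a ∈ resid s, ∑ j ∈ range f, ((p : ZMod m) ^ j * ((((-t : (ZMod m)ˣ)) : ZMod m) * a)).val
      + ∑ j ∈ range f, ((p : ZMod m) ^ j * ((t : ZMod m) * a)).val = f * m := by
    intro a ha
    rw [← Finset.sum_add_distrib]
    have h4 : ∀ j ∈ range f, ((p : ZMod m) ^ j * ((((-t : (ZMod m)ˣ)) : ZMod m) * a)).val +
        ((p : ZMod m) ^ j * ((t : ZMod m) * a)).val = m := by
      intro j _
      have hne : (p : ZMod m) ^ j * ((t : ZMod m) * a) ≠ 0 := by
        intro h0
        have h5 := ((hpu j).mul_right_eq_zero).mp h0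
        have h6 := (t.isUnit.mul_right_eq_zero).mp h5
        exact resid_zero hs (h6 ▸ ha)
      have h5 : (p : ZMod m) ^ j * ((((-t : (ZMod m)ˣ)) : ZMod m) * a) =
          -((p : ZMod m) ^ j * ((t : ZMod m) * a)) := by
        rw [Units.val_neg]
        ring
      have : NeZero ((p : ZMod m) ^ j * ((t : ZMod m) * a)) := ⟨hne⟩
      rw [h5, ZMod.val_neg_of_ne_zero]
      have := ZMod.val_lt ((p : ZMod m) ^ j * ((t : ZMod m) * a))
      omega
    rw [Finset.sum_congr rfl h4, Finset.sum_const, Finset.card_range, smul_eq_mul]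
  have h4 : ((resid s).map fun a => ∑ j ∈ range f,
      ((p : ZMod m) ^ j * ((((-t : (ZMod m)ˣ)) : ZMod m) * a)).val).sum +
      ((resid s).map fun a => ∑ j ∈ range f, ((p : ZMod m) ^ j * ((t : ZMod m) * a)).val).sum =
      (∑ b, n b + 2 * r) * (f * m) := by
    rw [← Multiset.sum_map_add, Multiset.map_congr rfl h3, Multiset.map_const', Multiset.sum_replicate,
      resid_card, smul_eq_mul]
  have h5 : ((resid s).map fun a => ∑ j ∈ range f, ((p : ZMod m) ^ j * ((t : ZMod m) * a)).val).sum =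
      ∑ j ∈ Finset.range f,
        ((resid s).map fun a => ((p : ZMod m) ^ j * ((t : ZMod m) * a)).val).sum :=
    Multiset.sum_map_sum_map _ _
  rw [← h5]
  obtain ⟨e, he⟩ : ∃ e, ∑ b, n b = e ∧ e + 1 = 2 * i := ⟨_, rfl, hi⟩
  rw [he.1] at h4
  have h6 : i + r - 2 + 1 = i + r - 1 := by omega
  rw [h6]
  have h7 : f * (m * (i + r)) + f * (m * (i + r - 1)) = (e + 2 * r) * (f * m) := by
    have h8 : i + r + (i + r - 1) = e + 2 * r := by omega
    rw [← h8]
    ring
  omega

end slopes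

section order

variable {k : Type} [Field k] [Fintype k] [DecidableEq k] {m : ℕ} [NeZero m]

/-- the function `G` of one line: eigenvalues, Euler product and order -/
theorem exists_G (χ : MulChar k ℂ) (hχ : orderOf χ = m)
    {ψ : AddChar k ℂ} (hψ : ψ ≠ 1) {r : ℕ} {n : Fin r → ℕ} {i : ℕ} (hi : ∑ b, n b + 1 = 2 * i)
    (a : ∀ b, Fin (n b + 2) → k[X]) (ha : ∀ b j, a b j ≠ 0)
    {s : ∀ b, Fin (n b + 2) → ZMod m} (hs : s ∈ lines m n) :
    ∃ (B : Multiset ℂ) (G : ℂ → ℂ), (∀ β ∈ B, IsIntegral ℤ β) ∧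
      ((∀ (E : Type) [Field E] [Fintype E] [Algebra k E],
          ∑ x : E, (χ⁻¹) (Algebra.norm k (aeval x (aps a s))) =
            -(B.map fun β => β ^ Module.finrank k E).sum) ∨
        (B = 0 ∧ ∃ ε : ℂ, ‖ε‖ = 1 ∧ ∀ (E : Type) [Field E] [Fintype E] [Algebra k E] (x : E),
          (∀ b j, aeval x (a b j) ≠ 0) →
            (χ⁻¹) (Algebra.norm k (aeval x (aps a s))) = ε ^ Module.finrank k E)) ∧
      (∀ x : ℂ, ‖x‖ * Fintype.card k < 1 →
        HasProd (fun v : FPlace k => (1 - lamA χ⁻¹ (aps a s) v.1 * x ^ v.1.natDegree)⁻¹) (G x)) ∧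
      (∀ z : ℂ, MeromorphicAt
        (fun z : ℂ => G (rho χ ψ s * (Fintype.card k : ℂ) ^ (-z))) z) ∧
      meromorphicOrderAt (fun z : ℂ => G (rho χ ψ s * (Fintype.card k : ℂ) ^ (-z))) i =
        ((Multiset.card (B.filter fun β => β * rho χ ψ s = (Fintype.card k : ℂ) ^ i) : ℕ) : ℤ) := by
  classical
  have hq1 : (1 : ℝ) < Fintype.card k := one_lt_q
  have hq0 : (0 : ℝ) < Fintype.card k := by linarith
  have hqc : (((Fintype.card k : ℝ) : ℂ)) = (Fintype.card k : ℂ) := by push_cast; rfl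
  have hA0 : aps a s ≠ 0 := aps_ne_zero ha s
  rcases dich χ⁻¹ (aps a s) hA0 with h | ⟨ε, hε, h⟩
  · obtain ⟨B, hB, hT⟩ := exists_eigen χ⁻¹ (aps a s) h
    refine ⟨B, fun x => (PB B).eval x, fun β hβ => (hB β hβ).1, Or.inl ?_, ?_, ?_, ?_⟩
    · intro E _ _ _
      rw [← TL_lamA (E := E) χ⁻¹ (aps a s), hT _ Module.finrank_pos]
    · intro x hx
      have h1 := hasProd_of_TL (k := k) (lamA χ⁻¹ (aps a s)) (fun P => lamA_norm_le _ _ _) 0 B
        (by simp) (fun β hβ => (hB β hβ).2) (fun l hl => by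
          rw [hT l hl, Multiset.map_zero, Multiset.sum_zero, zero_sub]) x hx
      rw [PB_zero, eval_one, div_one] at h1
      exact h1
    · intro z
      have := (order_PB hq1 B (rho χ ψ s) i).1 z
      rwa [hqc] at this
    · have := (order_PB hq1 B (rho χ ψ s) i).2
      rwa [hqc] at this
  · refine ⟨0, fun x => (1 - Fintype.card k * (ε * x))⁻¹ *
        ∏ v ∈ (finite_dvd (aps a s) hA0).toFinset, (1 - (ε * x) ^ v.1.natDegree), by simp,
        Or.inr ⟨rfl, ε, hε, ?_⟩, ?_, ?_, ?_⟩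
    · intro E _ _ _ x hx
      have hx0 : IsIntegral k x := Algebra.IsIntegral.isIntegral x
      have hirr := minpoly.irreducible hx0
      have h1 := lamA_minpoly (E := E) χ⁻¹ (aps a s) x
      have h2 : IsCoprime (minpoly k x) (aps a s) := by
        rw [hirr.coprime_iff_not_dvd]
        intro h3
        obtain ⟨b, j, h4⟩ := (dvd_aps a hs ⟨_, minpoly.monic hx0, hirr⟩).1 h3
        apply hx b j
        obtain ⟨g, hg⟩ := h4
        rw [hg, map_mul, minpoly.aeval, zero_mul]
      rw [← h1, h _ (minpoly.monic hx0) h2, ← pow_mul]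
      congr 1
      exact Nat.mul_div_cancel' (Pool.Agent.H341R2.Sharp.finrank_div x).2
    · intro x hx
      exact hasProd_triv χ⁻¹ (aps a s) hA0 ε hε h x hx
    all_goals
      have hz : ∀ z : ℂ, AnalyticAt ℂ
          (fun z : ℂ => ε * (rho χ ψ s * (Fintype.card k : ℂ) ^ (-z))) z := by
        intro z
        have := analyticAt_qz hq0 z
        rw [hqc] at this
        exact analyticAt_const.mul (analyticAt_const.mul this)
      have hz1 : ∀ z : ℂ, AnalyticAt ℂ
          (fun z : ℂ => 1 - Fintype.card k * (ε * (rho χ ψ s * (Fintype.card k : ℂ) ^ (-z)))) z :=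
        fun z => analyticAt_const.sub (analyticAt_const.mul (hz z))
      have hz2 : ∀ z : ℂ, AnalyticAt ℂ (fun z : ℂ => ∏ v ∈ (finite_dvd (aps a s) hA0).toFinset,
          (1 - (ε * (rho χ ψ s * (Fintype.card k : ℂ) ^ (-z))) ^ v.1.natDegree)) z := by
        intro z
        exact Finset.analyticAt_fun_prod _ fun v _ => analyticAt_const.sub ((hz z).pow _)
    · intro z
      exact (hz1 z).meromorphicAt.inv.mul (hz2 z).meromorphicAt
    · rw [Multiset.filter_zero, Multiset.card_zero]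
      have hn := norm_rho χ hχ hψ hs
      -- the norm of the argument
      have hX : ‖ε * (rho χ ψ s * (Fintype.card k : ℂ) ^ (-(i : ℂ)))‖ ^ 2 * Fintype.card k = 1 := by
        rw [norm_mul, norm_mul, hε, one_mul, Complex.cpow_neg, Complex.cpow_natCast, norm_inv,
          norm_pow, Complex.norm_natCast, mul_pow, hn]
        have h1 : ((Fintype.card k : ℝ) ^ (∑ b, n b)) * (Fintype.card k : ℝ) =
            ((Fintype.card k : ℝ) ^ i) ^ 2 := by
          rw [← pow_succ, hi, ← pow_mul, mul_comm]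
        rw [mul_right_comm, h1, ← mul_pow, mul_inv_cancel₀ (by positivity), one_pow]
      have hlt : ‖ε * (rho χ ψ s * (Fintype.card k : ℂ) ^ (-(i : ℂ)))‖ < 1 := by
        by_contra hge
        push Not at hge
        have h1 : 1 ≤ ‖ε * (rho χ ψ s * (Fintype.card k : ℂ) ^ (-(i : ℂ)))‖ ^ 2 := one_le_pow₀ hge
        nlinarith
      refine order_zero (((hz1 i).inv ?_).mul (hz2 i)) (mul_ne_zero (inv_ne_zero ?_) ?_)
      · intro h0
        have h1 : ‖(Fintype.card k : ℂ) * (ε * (rho χ ψ s * (Fintype.card k : ℂ) ^ (-(i : ℂ))))‖ = 1 := by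
          rw [← sub_eq_zero.1 h0, norm_one]
        rw [norm_mul, Complex.norm_natCast] at h1
        have h2 : ((Fintype.card k : ℝ) * ‖ε * (rho χ ψ s * (Fintype.card k : ℂ) ^ (-(i : ℂ)))‖) ^ 2
            = Fintype.card k := by
          rw [mul_pow, pow_two (Fintype.card k : ℝ), mul_assoc,
            mul_comm (Fintype.card k : ℝ) (‖_‖ ^ 2), hX, mul_one]
        rw [h1] at h2
        linarith
      · intro h0
        have h1 : ‖(Fintype.card k : ℂ) * (ε * (rho χ ψ s * (Fintype.card k : ℂ) ^ (-(i : ℂ))))‖ = 1 := by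
          rw [← sub_eq_zero.1 h0, norm_one]
        rw [norm_mul, Complex.norm_natCast] at h1
        have h2 : ((Fintype.card k : ℝ) * ‖ε * (rho χ ψ s * (Fintype.card k : ℂ) ^ (-(i : ℂ)))‖) ^ 2
            = Fintype.card k := by
          rw [mul_pow, pow_two (Fintype.card k : ℝ), mul_assoc,
            mul_comm (Fintype.card k : ℝ) (‖_‖ ^ 2), hX, mul_one]
        rw [h1] at h2
        linarith
      · refine Finset.prod_ne_zero_iff.2 fun v _ h0 => ?_
        have h1 : ‖(ε * (rho χ ψ s * (Fintype.card k : ℂ) ^ (-(i : ℂ)))) ^ v.1.natDegree‖ = 1 := by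
          rw [← sub_eq_zero.1 h0, norm_one]
        rw [norm_pow] at h1
        have h2 := pow_lt_one₀ (norm_nonneg _) hlt (deg_pos v).ne'
        linarith

end order

end Pool.Agent.Zk8.DH
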